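import Pool.Agent.Lib.MP_715eb0_an.RO.Spec2

/-!
# BGK: exponential sums over subgroups of `F_p^*`, from the flattening theorem
-/

set_option autoImplicit false

open MeasureTheory Finset Filter
open scoped Topology

namespace Pool.Agent.Lib.MP_715eb0_an.RO

open Pool.Agent.Lib.MP_715eb0_an

namespace BGKM

variable {p : ℕ} [Fact p.Prime] {K : Finset (ZMod p)}

lemma image_mul (h0 : 0 ∉ K) (hm : ∀ g ∈ K, ∀ h ∈ K, g * h ∈ K) {g : ZMod p} (hg : g ∈ K) :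
    K.image (fun h => g * h) = K := by
  have hg0 : g ≠ 0 := fun h => h0 (h ▸ hg)
  refine Finset.eq_of_subset_of_card_le ?_ ?_
  · intro y hy
    obtain ⟨h, hh, rfl⟩ := Finset.mem_image.1 hy
    exact hm g hg h hh
  · rw [Finset.card_image_of_injective _ (mul_right_injective₀ hg0)]

lemma one_mem (h0 : 0 ∉ K) (hm : ∀ g ∈ K, ∀ h ∈ K, g * h ∈ K) (hne : K.Nonempty) : 1 ∈ K := by
  obtain ⟨g, hg⟩ := hne
  have hg0 : g ≠ 0 := fun h => h0 (h ▸ hg)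
  have h1 : g ∈ K.image (fun h => g * h) := by
    rw [image_mul h0 hm hg]
    exact hg
  obtain ⟨h, hh, hgh⟩ := Finset.mem_image.1 h1
  have h2 : h = 1 := mul_left_cancel₀ hg0 (hgh.trans (mul_one g).symm)
  exact h2 ▸ hh

lemma inv_mem (h0 : 0 ∉ K) (hm : ∀ g ∈ K, ∀ h ∈ K, g * h ∈ K) {g : ZMod p} (hg : g ∈ K) :
    g⁻¹ ∈ K := by
  have h1 : (1 : ZMod p) ∈ K.image (fun h => g * h) := by
    rw [image_mul h0 hm hg]
    exact one_mem h0 hm ⟨g, hg⟩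
  obtain ⟨h, hh, hgh⟩ := Finset.mem_image.1 h1
  have h2 : g⁻¹ = h := inv_eq_of_mul_eq_one_right hgh
  exact h2 ▸ hh

lemma sum_mul (h0 : 0 ∉ K) (hm : ∀ g ∈ K, ∀ h ∈ K, g * h ∈ K) {g : ZMod p} (hg : g ∈ K)
    (F : ZMod p → ℂ) : ∑ h ∈ K, F (g * h) = ∑ h ∈ K, F h := by
  have hg0 : g ≠ 0 := fun h => h0 (h ▸ hg)
  conv_rhs => rw [← image_mul h0 hm hg]
  rw [Finset.sum_image fun a _ b _ hab => mul_left_cancel₀ hg0 hab]

/-- the average over `K` -/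
lemma QA_eq (h0 : 0 ∉ K) (hm : ∀ g ∈ K, ∀ h ∈ K, g * h ∈ K) (hne : K.Nonempty)
    (h : ZMod p → ℂ) (x : ZMod p) :
    MPcb27.SP.QA K h x = (∑ g ∈ K, h (g * x)) / (#K : ℂ) := by
  have hc : (#K : ℂ) ≠ 0 := by
    exact_mod_cast (Finset.card_pos.2 hne).ne'
  have h1 : ∀ d ∈ K, ∑ d' ∈ K, h (d' * d⁻¹ * x) = ∑ g ∈ K, h (g * x) := by
    intro d hd
    rw [← sum_mul h0 hm (inv_mem h0 hm hd) (fun y => h (y * x))]
    refine Finset.sum_congr rfl fun d' _ => ?_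
    rw [mul_comm d⁻¹ d']
  unfold MPcb27.SP.QA
  rw [Finset.sum_congr rfl h1, Finset.sum_const, nsmul_eq_mul, pow_two, mul_div_mul_left _ _ hc]

/-- the mean of the character over `K` -/
noncomputable def mm (K : Finset (ZMod p)) : ZMod p → ℂ :=
  fun x => (∑ g ∈ K, (ZMod.stdAddChar (g * x) : ℂ)) / (#K : ℂ)

lemma mm_mul (h0 : 0 ∉ K) (hm : ∀ g ∈ K, ∀ h ∈ K, g * h ∈ K) {g : ZMod p} (hg : g ∈ K)
    (x : ZMod p) : mm K (g * x) = mm K x := by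
  unfold mm
  rw [← sum_mul h0 hm hg (fun y => (ZMod.stdAddChar (y * x) : ℂ))]
  have h1 : ∀ h ∈ K, (ZMod.stdAddChar (h * (g * x)) : ℂ) = ZMod.stdAddChar (g * h * x) := by
    intro h _
    congr 1
    ring
  rw [Finset.sum_congr rfl h1]

lemma GN_eq (h0 : 0 ∉ K) (hm : ∀ g ∈ K, ∀ h ∈ K, g * h ∈ K) (hne : K.Nonempty) (n : ℕ) :
    MPcb27.SP.GN K (n + 1) = mm K := by
  have hc : (#K : ℂ) ≠ 0 := by
    exact_mod_cast (Finset.card_pos.2 hne).ne'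
  have h1 : MPcb27.SP.QA K (fun x => (ZMod.stdAddChar x : ℂ)) = mm K := by
    funext x
    rw [QA_eq h0 hm hne]
    rfl
  have h2 : MPcb27.SP.QA K (mm K) = mm K := by
    funext x
    rw [QA_eq h0 hm hne, Finset.sum_congr rfl fun g hg => mm_mul h0 hm hg x, Finset.sum_const,
      nsmul_eq_mul, mul_div_cancel_left₀ _ hc]
  unfold MPcb27.SP.GN
  rw [Function.iterate_succ_apply, h1]
  exact Function.iterate_fixed h2 n

end BGKM

open BGKM in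
theorem specBGK (hFL : MPcb27.SP.SpecFL) : SpecBGK := by
  intro δ hδ
  obtain ⟨s, k, hk, P, hP⟩ := hFL δ (δ / 2) hδ (half_pos hδ)
  have hk0 : (0 : ℝ) < k := by exact_mod_cast hk
  refine ⟨δ / (4 * k), by positivity, P, ?_⟩
  intro p _ hPp K h0 hm hcard x hx
  have hp0 : (0 : ℝ) < p := by
    exact_mod_cast (Fact.out : p.Prime).pos
  have hKpos : (0 : ℝ) < #K := lt_of_lt_of_le (Real.rpow_pos_of_pos hp0 δ) hcard
  have hne : K.Nonempty := by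
    rw [← Finset.card_pos]
    exact_mod_cast hKpos
  have h1 := hP p hPp K h0 hcard
  obtain ⟨n, hn⟩ : ∃ n, 2 ^ s = n + 1 := ⟨2 ^ s - 1, by have := Nat.one_le_two_pow (n := s); omega⟩
  rw [hn, GN_eq h0 hm hne n] at h1
  -- the sum over the orbit of `x`
  have h2 : (#K : ℝ) * ‖mm K x‖ ^ (2 * k) ≤ ∑ y, ‖mm K y‖ ^ (2 * k) := by
    calc (#K : ℝ) * ‖mm K x‖ ^ (2 * k) = ∑ g ∈ K, ‖mm K (g * x)‖ ^ (2 * k) := by
          rw [Finset.sum_congr rfl fun g hg => by rw [mm_mul h0 hm hg x], Finset.sum_const,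
            nsmul_eq_mul]
      _ = ∑ y ∈ K.image (fun g => g * x), ‖mm K y‖ ^ (2 * k) := by
          rw [Finset.sum_image fun a _ b _ hab => mul_right_cancel₀ hx hab]
      _ ≤ ∑ y, ‖mm K y‖ ^ (2 * k) :=
          Finset.sum_le_sum_of_subset_of_nonneg (Finset.subset_univ _) fun y _ _ => by positivity
  have h3 : (p : ℝ) ^ δ * ‖mm K x‖ ^ (2 * k) ≤ (p : ℝ) ^ (δ / 2) :=
    (mul_le_mul_of_nonneg_right hcard (by positivity)).trans (h2.trans h1)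
  have h4 : ‖mm K x‖ ^ (2 * k) ≤ ((p : ℝ) ^ (-(δ / (4 * k)))) ^ (2 * k) := by
    have h5 : ((p : ℝ) ^ (-(δ / (4 * k)))) ^ (2 * k) = (p : ℝ) ^ (-(δ / 2)) := by
      rw [← Real.rpow_natCast, ← Real.rpow_mul hp0.le]
      congr 1
      push_cast
      field_simp
      ring
    rw [h5]
    have h6 : (p : ℝ) ^ (δ / 2) = (p : ℝ) ^ δ * (p : ℝ) ^ (-(δ / 2)) := by
      rw [← Real.rpow_add hp0]
      congr 1
      ring
    rw [h6] at h3
    exact le_of_mul_le_mul_left h3 (Real.rpow_pos_of_pos hp0 δ)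
  have h7 : ‖mm K x‖ ≤ (p : ℝ) ^ (-(δ / (4 * k))) :=
    le_of_pow_le_pow_left₀ (by omega) (Real.rpow_nonneg hp0.le _) h4
  have h8 : ‖∑ h ∈ K, (ZMod.stdAddChar (h * x) : ℂ)‖ = ‖mm K x‖ * #K := by
    unfold mm
    rw [norm_div, Complex.norm_natCast, div_mul_cancel₀ _ hKpos.ne']
  rw [h8]
  exact mul_le_mul_of_nonneg_right h7 hKpos.le

end Pool.Agent.Lib.MP_715eb0_an.RO
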