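import Pool.Agent.Lib.MP_715eb0_an.RO.Spec

/-!
# MP_715eb0_an, RO, module CYC: subgroups of the residues that are `1` modulo `rad q`
-/

set_option autoImplicit false

open MeasureTheory Finset Filter
open scoped Topology

namespace Pool.Agent.Lib.MP_715eb0_an.RO

open Pool.Agent.Lib.MP_715eb0_an

namespace CYCM

lemma dvd_rad {q p : ℕ} (hq : q ≠ 0) (hp : p.Prime) (hpq : p ∣ q) : p ∣ rad q := by
  unfold rad
  exact Finset.dvd_prod_of_mem (fun p => p) (Nat.mem_primeFactors.mpr ⟨hp, hpq, hq⟩)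

lemma rad_dvd (q : ℕ) : rad q ∣ q := by
  unfold rad
  exact Nat.prod_primeFactors_dvd q

lemma cop {q h : ℕ} (hq : q ≠ 0) (hh : h ≡ 1 [MOD rad q]) : h.Coprime q := by
  by_contra hn
  obtain ⟨p, hp, h1, h2⟩ := Nat.Prime.not_coprime_iff_dvd.mp hn
  have h3 : h ≡ 1 [MOD p] := hh.of_dvd (dvd_rad hq hp h2)
  have h4 : h ≡ 0 [MOD p] := (Nat.modEq_zero_iff_dvd).mpr h1
  have h5 : 1 ≡ 0 [MOD p] := h3.symm.trans h4
  have h6 : p ∣ 1 := (Nat.modEq_zero_iff_dvd).mp h5
  exact hp.one_lt.ne' (Nat.dvd_one.mp h6)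

/-- Lagrange -/
lemma pow_card {q : ℕ} (hq : q ≠ 0) {K : Finset ℕ} (hK : K ⊆ range q)
    (hr : ∀ h ∈ K, h ≡ 1 [MOD rad q]) (hmul : ∀ h ∈ K, ∀ h' ∈ K, h * h' % q ∈ K) {u : ℕ}
    (hu : u ∈ K) : u ^ K.card ≡ 1 [MOD q] := by
  have hinj : Set.InjOn (fun h => u * h % q) (K : Set ℕ) := by
    intro a ha b hb hab
    have h1 : u * a ≡ u * b [MOD q] := hab
    have h2 : a ≡ b [MOD q] := Nat.ModEq.cancel_left_of_coprime
      (Nat.Coprime.symm (cop hq (hr u hu))) h1
    exact Nat.ModEq.eq_of_lt_of_lt h2 (mem_range.mp (hK ha)) (mem_range.mp (hK hb))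
  have himg : K.image (fun h => u * h % q) = K := by
    apply Finset.eq_of_subset_of_card_le
    · intro a ha
      obtain ⟨b, hb, rfl⟩ := Finset.mem_image.mp ha
      exact hmul u hu b hb
    · rw [Finset.card_image_of_injOn hinj]
  have hprod : ∏ h ∈ K, (u * h % q) = ∏ h ∈ K, h := by
    conv_rhs => rw [← himg]
    rw [Finset.prod_image hinj]
  have h1 : ((u ^ K.card * ∏ h ∈ K, h : ℕ) : ZMod q) = ((1 * ∏ h ∈ K, h : ℕ) : ZMod q) := by
    rw [one_mul]
    conv_rhs => rw [← hprod]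
    rw [← Finset.prod_const, ← Finset.prod_mul_distrib, Nat.cast_prod, Nat.cast_prod]
    refine Finset.prod_congr rfl fun h _ => ?_
    rw [ZMod.natCast_mod]
  have h2 := (ZMod.natCast_eq_natCast_iff _ _ _).mp h1
  refine Nat.ModEq.cancel_right_of_coprime ?_ h2
  exact Nat.Coprime.symm (Nat.Coprime.prod_left fun h hh => cop hq (hr h hh))

/-- lifting the exponent -/
lemma lift {q : ℕ} (hq6 : q.Coprime 6) (hq : q ≠ 0) {h m : ℕ} (hm : m ≠ 0)
    (hh : h ≡ 1 [MOD rad q]) (h1 : 1 < h) (hpow : h ^ m ≡ 1 [MOD q]) : q ∣ (h - 1) * m := by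
  have hlt : 1 < h ^ m := Nat.one_lt_pow hm h1
  have hdv : q ∣ h ^ m - 1 := (Nat.modEq_iff_dvd' hlt.le).mp hpow.symm
  have hne : h ^ m - 1 ≠ 0 := by omega
  have hne1 : h - 1 ≠ 0 := by omega
  rw [← Nat.factorization_le_iff_dvd hq (mul_ne_zero hne1 hm)]
  intro p
  by_cases hp : p.Prime
  · by_cases hpq : p ∣ q
    · haveI : Fact p.Prime := ⟨hp⟩
      have hodd : Odd p := by
        rcases hp.eq_two_or_odd' with h2 | h2
        · exfalso
          rw [h2] at hpq
          have h3 : Nat.Coprime 2 6 := Nat.Coprime.coprime_dvd_left hpq hq6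
          norm_num at h3
        · exact h2
      have hph : p ∣ h - 1 := (Nat.modEq_iff_dvd' h1.le).mp ((hh.of_dvd (dvd_rad hq hp hpq)).symm)
      have hnd : ¬ p ∣ h := by
        intro h3
        have h4 : p ∣ 1 := by
          have h5 := (Nat.dvd_sub h3 hph)
          have h6 : h - (h - 1) = 1 := by omega
          rwa [h6] at h5
        exact hp.one_lt.ne' (Nat.dvd_one.mp h4)
      have h2 := padicValNat.pow_sub_pow (p := p) hodd h1 hph hnd hm
      rw [one_pow] at h2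
      have h3 := (Nat.factorization_le_iff_dvd hq hne).mpr hdv p
      rw [Nat.factorization_def _ hp, Nat.factorization_def _ hp, h2] at h3
      rw [Nat.factorization_def _ hp, Nat.factorization_def _ hp, padicValNat.mul hne1 hm]
      exact h3
    · rw [Nat.factorization_eq_zero_of_not_dvd hpq]
      exact Nat.zero_le _
  · rw [Nat.factorization_eq_zero_of_not_prime _ hp]
    exact Nat.zero_le _

/-- counting -/
lemma count {q D : ℕ} (hD : D ∣ q) (hD0 : D ≠ 0) :
    ((range q).filter (fun h => h ≡ 1 [MOD D])).card ≤ q / D := by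
  rw [← card_range (q / D)]
  refine Finset.card_le_card_of_injOn (fun h => h / D) ?_ ?_
  · intro h hh
    have h1 := (Finset.mem_filter.mp hh).1
    refine Finset.mem_coe.mpr (mem_range.mpr (Nat.div_lt_of_lt_mul ?_))
    rw [Nat.mul_div_cancel' hD]
    exact mem_range.mp h1
  · intro a ha b hb hab
    have h1 := (Finset.mem_filter.mp ha).2
    have h2 := (Finset.mem_filter.mp hb).2
    have h3 : a % D = b % D := h1.trans h2.symm
    have h4 : a / D = b / D := hab
    rw [← Nat.div_add_mod a D, ← Nat.div_add_mod b D, h3, h4]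

end CYCM

open CYCM in
/-- Subgroups of the residues that are `1` modulo `rad q`. -/
theorem specCYC : SpecCYC := by
  intro q hq6 K hK hr h1K hmul
  have hq : q ≠ 0 := by
    rintro rfl
    norm_num at hq6
  have hKne : K.Nonempty := ⟨_, h1K⟩
  have hm : K.card ≠ 0 := Finset.card_ne_zero_of_mem h1K
  have hall : ∀ h ∈ K, q ∣ (h - 1) * K.card := by
    intro h hh
    rcases Nat.lt_or_ge 1 h with h1 | h1
    · exact lift hq6 hq hm (hr h hh) h1 (pow_card hq hK hr hmul hh)
    · have h2 : h - 1 = 0 := by omega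
      rw [h2, zero_mul]
      exact dvd_zero q
  obtain ⟨g, hg⟩ : ∃ g, g = Nat.gcd q K.card := ⟨_, rfl⟩
  have hgq : g ∣ q := hg ▸ Nat.gcd_dvd_left _ _
  have hgm : g ∣ K.card := hg ▸ Nat.gcd_dvd_right _ _
  have hg0 : 0 < g := hg ▸ Nat.gcd_pos_of_pos_left _ (Nat.pos_of_ne_zero hq)
  have hD0 : q / g ≠ 0 := (Nat.div_pos (Nat.le_of_dvd (Nat.pos_of_ne_zero hq) hgq) hg0).ne'
  have hDq : q / g ∣ q := Nat.div_dvd_of_dvd hgq
  have hmod : ∀ h ∈ K, h ≡ 1 [MOD q / g] := by
    intro h hh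
    have h1 : q / g ∣ (h - 1) * (K.card / g) := by
      obtain ⟨a, ha⟩ := hgq
      obtain ⟨b, hb⟩ := hgm
      have h2 := hall h hh
      rw [ha, hb] at h2
      rw [ha, hb, Nat.mul_div_cancel_left _ hg0, Nat.mul_div_cancel_left _ hg0]
      have h3 : g * a ∣ g * ((h - 1) * b) := by
        have e : (h - 1) * (g * b) = g * ((h - 1) * b) := by ring
        rwa [e] at h2
      exact Nat.dvd_of_mul_dvd_mul_left hg0 h3
    have h4 : Nat.Coprime (q / g) (K.card / g) := by
      rw [hg]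
      exact Nat.coprime_div_gcd_div_gcd (by rw [← hg]; exact hg0)
    have h5 : q / g ∣ h - 1 := h4.dvd_of_dvd_mul_right h1
    rcases Nat.eq_zero_or_pos h with h0 | h0
    · -- then q = 1
      subst h0
      have h6 := cop hq (hr 0 hh)
      have h7 : q = 1 := by
        rwa [Nat.coprime_zero_left] at h6
      have h8 : q / g = 1 := by
        have : q / g ∣ 1 := h7 ▸ hDq
        exact Nat.dvd_one.mp this
      rw [h8]
      exact Nat.modEq_one
    · exact ((Nat.modEq_iff_dvd' h0).mpr h5).symm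
  have hsub : K ⊆ (range q).filter (fun h => h ≡ 1 [MOD q / g]) := fun h hh =>
    Finset.mem_filter.mpr ⟨hK hh, hmod h hh⟩
  have hqg : q / (q / g) = g := Nat.div_div_self hgq hq
  have hcnt := count hDq hD0
  rw [hqg] at hcnt
  have hgle : g ≤ K.card := Nat.le_of_dvd (Nat.pos_of_ne_zero hm) hgm
  have hKeq := Finset.eq_of_subset_of_card_le hsub (hcnt.trans hgle)
  have hcard : K.card = g := by
    refine le_antisymm ?_ hgle
    calc K.card ≤ _ := Finset.card_le_card hsub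
      _ ≤ g := hcnt
  have hmem : ∀ t : ℕ, (1 + q / K.card * t) % q ∈ K := by
    intro t
    rw [hcard, hKeq, Finset.mem_filter, mem_range]
    refine ⟨Nat.mod_lt _ (Nat.pos_of_ne_zero hq), ?_⟩
    have h1 : (1 + q / g * t) % q ≡ 1 + q / g * t [MOD q / g] := (Nat.mod_modEq _ _).of_dvd hDq
    refine h1.trans ?_
    have h2 : q / g * t ≡ 0 [MOD q / g] := (Nat.modEq_zero_iff_dvd).mpr (Dvd.intro _ rfl)
    exact (Nat.ModEq.add_left 1 h2)
  refine ⟨?_, hmem⟩
  have h1 := hr _ (hmem 1)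
  rw [mul_one] at h1
  have h2 : (1 + q / K.card) % q ≡ 1 + q / K.card [MOD rad q] :=
    (Nat.mod_modEq _ _).of_dvd (rad_dvd q)
  have h3 : 1 + q / K.card ≡ 1 [MOD rad q] := h2.symm.trans h1
  have h4 : rad q ∣ q / K.card := by
    have h5 : 1 + q / K.card ≡ 1 + 0 [MOD rad q] := h3
    exact (Nat.modEq_zero_iff_dvd).mp (Nat.ModEq.add_left_cancel' 1 h5)
  have h5 : K.card ∣ q := hcard ▸ hgq
  calc K.card * rad q ∣ K.card * (q / K.card) := Nat.mul_dvd_mul_left _ h4
    _ = q := Nat.mul_div_cancel' h5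

end Pool.Agent.Lib.MP_715eb0_an.RO
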