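import Pool.Agent.Lib.MP_715eb0_an.Defs

/-!
# Orders of the finite `x2, x3`-invariant measures: definitions for the reduction
-/

open MeasureTheory Filter
open scoped Topology

namespace Pool.Agent.Lib.MP_715eb0_an.Orders

/-- The number of residues of `2^i 3^j` modulo `q`. -/
noncomputable def N (q : ℕ) : ℕ := Set.ncard {r : ℕ | ∃ i j : ℕ, 2 ^ i * 3 ^ j % q = r}

/-- The product of the primes dividing `q`. -/
def rad (q : ℕ) : ℕ := ∏ p ∈ q.primeFactors, p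

/-- The conditions on the order `q`. -/
def Reduced (C : ℝ) (B : ℕ → ℝ) (q : ℕ) : Prop :=
  N q = N (rad q) ∧
  (∀ r s : ℕ, r.Coprime s → r * s = q → (N q : ℝ) ≤ C * √(s : ℝ) * N r) ∧
  ∀ m : ℕ, 1 ≤ m → ∀ r p : ℕ, p.Prime → r.Coprime p → r * p = q →
    (N q : ℝ) ≤ B m * (p : ℝ) ^ (1 / (m : ℝ)) * N r

/-- `∫ f dμ_j → ∫ f` for all continuous `f`. -/
def Lim (μ : ℕ → Measure T) : Prop :=
  ∀ f : C(T, ℝ), Tendsto (fun j => ∫ t, f t ∂(μ j)) atTop (𝓝 (∫ t in (0 : ℝ)..1, f ((t : ℝ) : T)))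

end Pool.Agent.Lib.MP_715eb0_an.Orders
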