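import Pool.Agent.Lib.MP_715eb0_an.RO.Spec
import Pool.Agent.Lib.MP_715eb0_an.SI.AVG

/-!
# MP_715eb0_an, module FVN: vanishing Fourier coefficients
-/

set_option autoImplicit false

open MeasureTheory Finset Filter
open scoped Topology

namespace Pool.Agent.Lib.MP_715eb0_an.RO

open Pool.Agent.Lib.MP_715eb0_an

namespace FVNM

lemma fourier_arg_add (n : ℤ) (x y : T) :
    (fourier n (x + y) : ℂ) = (fourier n x : ℂ) * (fourier n y : ℂ) := by
  rw [fourier_apply, fourier_apply, fourier_apply, smul_add, AddCircle.toCircle_add,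
    Circle.coe_mul]

lemma fourier_arg_nsmul (n : ℤ) (t : ℕ) (x : T) :
    (fourier n (t • x) : ℂ) = (fourier n x : ℂ) ^ t := by
  induction t with
  | zero =>
    rw [zero_smul, pow_zero, fourier_apply, smul_zero, AddCircle.toCircle_zero, Circle.coe_one]
  | succ t ih => rw [succ_nsmul, fourier_arg_add, ih, pow_succ]

lemma fourier_arg_eq_one (n : ℤ) (x : T) (h : (fourier n x : ℂ) = 1) : n • x = 0 := by
  rw [fourier_apply, ← Circle.coe_one, Circle.coe_inj, ← AddCircle.toCircle_zero (T := (1 : ℝ))] at h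
  exact AddCircle.injective_toCircle one_ne_zero h

end FVNM

open FVNM in
theorem specFVN (hKER : SpecKER) (hCYC : SpecCYC) : SpecFVN := by
  intro x hx n hn
  obtain ⟨q, hq⟩ : ∃ q, q = addOrderOf x := ⟨_, rfl⟩
  rw [← hq] at hx hn
  have hq0 : 0 < q := pos_of_coprime hx
  have hrad : rad q ∣ q := Nat.prod_primeFactors_dvd q
  obtain ⟨k1, k2, -⟩ := hKER q (rad q) hx hrad
  have hsub : Ker q (rad q) ⊆ R q := filter_subset _ _
  have hRr : R q ⊆ range q := by
    intro h hh
    simp only [R, mem_filter] at hh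
    exact hh.1
  obtain ⟨c1, c2⟩ := hCYC q hx (Ker q (rad q)) (hsub.trans hRr)
    (fun h hh => (mem_filter.1 hh).2) k1 k2
  obtain ⟨M, hM⟩ : ∃ M, M = (Ker q (rad q)).card := ⟨_, rfl⟩
  rw [← hM] at c1 c2 hn
  have hM0 : 0 < M := by rw [hM]; exact card_pos.2 ⟨_, k1⟩
  obtain ⟨D, hD⟩ := (dvd_mul_right M (rad q)).trans c1
  have hqM : q / M = D := by rw [hD]; exact Nat.mul_div_cancel_left D hM0
  rw [hqM] at c2
  have hz : q • x = 0 := by rw [hq]; exact addOrderOf_nsmul_eq_zero x
  have hx' : (addOrderOf x).Coprime 6 := by rw [← hq]; exact hx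
  have hord : ∀ w ∈ Orb x, addOrderOf w = q := by
    intro w hw
    rw [order_of_mem_Orb hx' hw, hq]
  have hs : ∀ t : ℕ, ∑ w ∈ Orb x, (fourier n w : ℂ) * (fourier n (D • w) : ℂ) ^ t =
      ∑ w ∈ Orb x, (fourier n w : ℂ) := by
    intro t
    have h := SI.AVGM.second hx hz (fun w => (fourier n w : ℂ)) (hsub (c2 t))
    rw [← h]
    refine sum_congr rfl fun w hw => ?_
    have hqw : q • w = 0 := by rw [← hord w hw]; exact addOrderOf_nsmul_eq_zero w
    show _ = (fourier n (((1 + D * t) % q) • w) : ℂ)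
    rw [SI.AVGM.mod_nsmul hqw, add_nsmul, one_nsmul, mul_comm D t, mul_nsmul', fourier_arg_add,
      fourier_arg_nsmul n t]
  have hin : ∀ w ∈ Orb x, ∑ t ∈ range M, (fourier n (D • w) : ℂ) ^ t = 0 := by
    intro w hw
    have hne : (fourier n (D • w) : ℂ) ≠ 1 := by
      intro h1
      have h2 := fourier_arg_eq_one n _ h1
      have h3 : (n * (D : ℤ)) • w = 0 := by
        rw [mul_smul, natCast_zsmul]
        exact h2
      rw [← addOrderOf_dvd_iff_zsmul_eq_zero, hord w hw, hD] at h3
      push_cast at h3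
      have hD0 : (D : ℤ) ≠ 0 := by
        intro h0
        have : D = 0 := by exact_mod_cast h0
        rw [this, mul_zero] at hD
        omega
      exact hn (Int.dvd_of_mul_dvd_mul_right hD0 h3)
    have hpow : (fourier n (D • w) : ℂ) ^ M = 1 := by
      rw [← fourier_arg_nsmul, ← mul_nsmul', ← hD]
      have hqw : q • w = 0 := by rw [← hord w hw]; exact addOrderOf_nsmul_eq_zero w
      rw [hqw]
      have := fourier_arg_nsmul n 0 (0 : T)
      rw [zero_smul, pow_zero] at this
      exact this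
    rw [geom_sum_eq hne, hpow, sub_self, zero_div]
  have hsum : (M : ℂ) * ∑ w ∈ Orb x, (fourier n w : ℂ) = 0 := by
    calc (M : ℂ) * ∑ w ∈ Orb x, (fourier n w : ℂ)
        = ∑ t ∈ range M, ∑ w ∈ Orb x, (fourier n w : ℂ) * (fourier n (D • w) : ℂ) ^ t := by
          rw [sum_congr rfl fun t _ => hs t, sum_const, card_range, nsmul_eq_mul]
      _ = ∑ w ∈ Orb x, (fourier n w : ℂ) * ∑ t ∈ range M, (fourier n (D • w) : ℂ) ^ t := by
          rw [sum_comm]
          exact sum_congr rfl fun w _ => (mul_sum _ _ _).symm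
      _ = 0 := sum_eq_zero fun w hw => by rw [hin w hw, mul_zero]
  rcases mul_eq_zero.1 hsum with h | h
  · exact absurd (by exact_mod_cast h : M = 0) hM0.ne'
  · exact h

end Pool.Agent.Lib.MP_715eb0_an.RO
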