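import Pool.Agent.Lib.MP_715eb0_an.RO.Spec

/-! # KRM: the reduced order -/

set_option autoImplicit false

open MeasureTheory Finset Filter
open scoped Topology

namespace Pool.Agent.Lib.MP_715eb0_an.RO

open Pool.Agent.Lib.MP_715eb0_an

namespace KRMM

open Classical in
theorem mem_Ker {q r h : ℕ} : h ∈ Ker q r ↔ h ∈ R q ∧ h ≡ 1 [MOD r] := by
  unfold Ker
  rw [mem_filter]

theorem R_sub (q : ℕ) : R q ⊆ range q := by
  classical
  unfold R
  exact filter_subset _ _

theorem rad_dvd (q : ℕ) : rad q ∣ q := Nat.prod_primeFactors_dvd q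

theorem rad_eq {q D : ℕ} (hq : 0 < q) (hDq : D ∣ q) (hr : rad q ∣ D) : rad D = rad q := by
  have hD0 : D ≠ 0 := by
    rintro rfl
    exact hq.ne' (Nat.eq_zero_of_zero_dvd hDq)
  have h : D.primeFactors = q.primeFactors := by
    apply Finset.Subset.antisymm
    · exact Nat.primeFactors_mono hDq hq.ne'
    · intro p hp
      have hpp : p.Prime := Nat.prime_of_mem_primeFactors hp
      have h1 : p ∣ rad q := Finset.dvd_prod_of_mem (fun p => p) hp
      exact Nat.mem_primeFactors.2 ⟨hpp, h1.trans hr, hD0⟩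
  unfold rad
  rw [h]

end KRMM

open KRMM

theorem specKRM (hKER : SpecKER) (hCYC : SpecCYC) : SpecKRM := by
  intro q M hq hM
  have hq0 : 0 < q := pos_of_coprime hq
  obtain ⟨k1, k2, k3⟩ := hKER q (rad q) hq (rad_dvd q)
  have hsub : Ker q (rad q) ⊆ range q := by
    intro h hh
    exact R_sub q (mem_Ker.1 hh).1
  obtain ⟨c1, c2⟩ := hCYC q hq (Ker q (rad q)) hsub (fun h hh => (mem_Ker.1 hh).2) k1 k2
  rw [← hM] at c1 c2 k3
  have hM1 : 1 ≤ M := by
    rw [hM]
    exact Finset.card_pos.2 ⟨_, k1⟩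
  have hMq : M ∣ q := (Dvd.intro _ rfl).trans c1
  obtain ⟨D, hD⟩ := hMq
  have hDq : q / M = D := by
    rw [hD]
    exact Nat.mul_div_cancel_left D (by omega)
  rw [hDq] at c2 ⊢
  have hD0 : 0 < D := by
    rcases Nat.eq_zero_or_pos D with h | h
    · rw [h, mul_zero] at hD
      omega
    · exact h
  have hrD : rad q ∣ D := by
    have h1 : M * rad q ∣ M * D := by rw [← hD]; exact c1
    exact Nat.dvd_of_mul_dvd_mul_left (by omega) h1
  have hDdvd : D ∣ q := Dvd.intro_left M hD.symm
  obtain ⟨-, -, e3⟩ := hKER q D hq hDdvd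
  have hcard : (Ker q D).card = M := by
    apply le_antisymm
    · rw [hM]
      refine Finset.card_le_card ?_
      intro h hh
      obtain ⟨h1, h2⟩ := mem_Ker.1 hh
      exact mem_Ker.2 ⟨h1, h2.of_dvd hrD⟩
    · have h1 : (range M).card ≤ (Ker q D).card := by
        refine Finset.card_le_card_of_injOn (fun t => (1 + D * t) % q) ?_ ?_
        · intro t _
          refine mem_Ker.2 ⟨(mem_Ker.1 (c2 t)).1, ?_⟩
          have h2 : (1 + D * t) % q ≡ 1 + D * t [MOD D] := (Nat.mod_modEq _ q).of_dvd hDdvd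
          refine h2.trans ?_
          exact (Nat.modEq_iff_dvd' (by omega)).2 (by simp) |>.symm
        · intro t ht t' ht' htt
          have ht1 : t < M := by simpa using ht
          have ht2 : t' < M := by simpa using ht'
          have h2 : 1 + D * t ≡ 1 + D * t' [MOD q] := htt
          have h3 : D * t ≡ D * t' [MOD q] := Nat.ModEq.add_left_cancel' 1 h2
          rw [hD, mul_comm M D] at h3
          have h4 : t ≡ t' [MOD M] := Nat.ModEq.mul_left_cancel' hD0.ne' h3
          have h5 : t % M = t' % M := h4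
          rwa [Nat.mod_eq_of_lt ht1, Nat.mod_eq_of_lt ht2] at h5
      rwa [Finset.card_range] at h1
  rw [hcard] at e3
  refine ⟨hM1, Dvd.intro D hD.symm, e3, ?_⟩
  rw [rad_eq hq0 hDdvd hrD]
  have h6 : M * cnt D = M * cnt (rad q) := by rw [e3, k3]
  exact Nat.eq_of_mul_eq_mul_left (by omega) h6

end Pool.Agent.Lib.MP_715eb0_an.RO
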