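import Pool.Agent.Lib.MP_715eb0_an.RO.Spec
import Pool.Agent.Lib.MP_715eb0_an.SI.MOM

/-!
# PSH: the image of an orbit measure under multiplication by `M`
-/

set_option autoImplicit false

open MeasureTheory Finset Filter
open scoped Topology

namespace Pool.Agent.Lib.MP_715eb0_an.RO

open Pool.Agent.Lib.MP_715eb0_an

theorem specPSH (hAVG : SI.SpecAVG) : SpecPSH := by
  intro x hx M n
  have hq : addOrderOf x • x = 0 := addOrderOf_nsmul_eq_zero x
  have hq' : addOrderOf x • (M • x) = 0 := by rw [smul_comm, hq, smul_zero]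
  rw [SI.MOMM.integral_eq hAVG hx hq, SI.MOMM.integral_eq hAVG hx hq']
  congr 1
  refine sum_congr rfl fun r _ => ?_
  rw [fourier_apply, fourier_apply]
  have h : ((M : ℤ) * n) • (r • x) = n • (r • (M • x)) := by
    rw [mul_comm, mul_smul, natCast_zsmul, smul_comm M r x]
  rw [h]

end Pool.Agent.Lib.MP_715eb0_an.RO
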