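import Pool.Agent.Lib.MP_715eb0_an.RO.Spec

/-!
# MP_715eb0_an, module RD2: a large Fourier coefficient is one of a reduced order (helper64)
-/

set_option autoImplicit false

open MeasureTheory Finset Filter
open scoped Topology

namespace Pool.Agent.Lib.MP_715eb0_an.RO

open Pool.Agent.Lib.MP_715eb0_an

theorem specRD2 (hFVN : SpecFVN) (hSC2 : SpecSC2) (hKRM : SpecKRM) (hPSH : SpecPSH) :
    SpecRD2 := by
  intro x hx n τ hn hτ hlarge
  set q := addOrderOf x with hq
  have hq0 : 0 < q := pos_of_coprime hx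
  obtain ⟨hM1, hMq, hMc, hrad⟩ := hKRM q (Ker q (rad q)).card hx rfl
  set M := (Ker q (rad q)).card with hM
  have hdvd : (M : ℤ) ∣ n := by
    by_contra hno
    have h0 := hFVN x hx n hno
    have h1 := integral_U (S := Orb x) (fourier n : C(T, ℂ))
    rw [h0, mul_zero] at h1
    have h2 : ∫ t, (fourier n t : ℂ) ∂(U (Orb x)) = 0 := h1
    rw [h2, norm_zero] at hlarge
    linarith
  obtain ⟨n', hn'⟩ := hdvd
  have hn0 : n' ≠ 0 := by
    rintro rfl
    rw [mul_zero] at hn'
    exact hn hn'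
  have hord : addOrderOf (M • x) = q / M := by
    rw [addOrderOf_nsmul' x (by omega : M ≠ 0), ← hq, Nat.gcd_eq_right hMq]
  have hDq : q / M ∣ q := Nat.div_dvd_of_dvd hMq
  have hcop : (addOrderOf (M • x)).Coprime 6 := by
    rw [hord]
    exact Nat.Coprime.coprime_dvd_left hDq hx
  have hint : ∫ t, (fourier n t : ℂ) ∂(U (Orb x)) =
      ∫ t, (fourier n' t : ℂ) ∂(U (Orb (M • x))) := by
    rw [hn']
    exact hPSH x hx M n'
  refine ⟨M, n', hM1, hn'.symm, hint, hcop, ?_, ?_⟩
  · refine ⟨?_, ?_⟩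
    · rw [hord]
      exact hrad
    · intro r s hrs hmul
      have h1 := hSC2 (M • x) hcop r s hrs hmul n' hn0
      have h2 := integral_U (S := Orb (M • x)) (fourier n' : C(T, ℂ))
      have hcard : (Orb (M • x)).card = cnt (addOrderOf (M • x)) := card_Orb (M • x)
      rw [hcard] at h2
      have hcpos : (0 : ℝ) < cnt (addOrderOf (M • x)) := by
        exact_mod_cast cnt_pos (pos_of_coprime hcop)
      have h3 : ‖∫ t, (fourier n' t : ℂ) ∂(U (Orb (M • x)))‖ =
          (cnt (addOrderOf (M • x)) : ℝ)⁻¹ * ‖∑ w ∈ Orb (M • x), (fourier n' w : ℂ)‖ := by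
        rw [h2, norm_mul, norm_inv, Complex.norm_natCast]
      rw [hint, h3] at hlarge
      have h4 : τ * cnt (addOrderOf (M • x)) < ‖∑ w ∈ Orb (M • x), (fourier n' w : ℂ)‖ := by
        rw [inv_mul_eq_div, lt_div_iff₀ hcpos] at hlarge
        exact hlarge
      have h5 : τ * cnt (addOrderOf (M • x)) ≤ √((s : ℝ) * |(n' : ℝ)|) * cnt r :=
        h4.le.trans h1
      rw [Real.sqrt_mul (Nat.cast_nonneg s)] at h5
      rw [div_mul_eq_mul_div, div_mul_eq_mul_div, le_div_iff₀ hτ]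
      calc (cnt (addOrderOf (M • x)) : ℝ) * τ = τ * cnt (addOrderOf (M • x)) := mul_comm _ _
        _ ≤ √(s : ℝ) * √|(n' : ℝ)| * cnt r := h5
        _ = √|(n' : ℝ)| * √(s : ℝ) * cnt r := by ring
  · rw [hord]
    exact hMc

end Pool.Agent.Lib.MP_715eb0_an.RO
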