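import Pool.Agent.Lib.MP_715eb0_an.RO.Spec

/-!
# Module RED: the reduction to correlated orders
-/

set_option autoImplicit false

open MeasureTheory Finset Filter
open scoped Topology

namespace Pool.Agent.Lib.MP_715eb0_an.RO

open Pool.Agent.Lib.MP_715eb0_an

namespace REDM

/-- If all real continuous functions have the right limits, the Fourier coefficients tend to `0`. -/
lemma lim_fourier {ν : ℕ → Measure T} (hν : ∀ j, IsProbabilityMeasure (ν j)) (hL : Lim ν)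
    {k : ℤ} (hk : k ≠ 0) :
    Tendsto (fun j => ∫ t, (fourier k t : ℂ) ∂(ν j)) atTop (𝓝 0) := by
  let fr : C(T, ℝ) := ⟨fun t => (fourier k t : ℂ).re,
    Complex.continuous_re.comp (fourier k).continuous⟩
  let fi : C(T, ℝ) := ⟨fun t => (fourier k t : ℂ).im,
    Complex.continuous_im.comp (fourier k).continuous⟩
  have hint : ∀ j, Integrable (fun t => (fourier k t : ℂ)) (ν j) := by
    intro j
    have := hν j
    exact (fourier k).continuous.integrable_of_hasCompactSupport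
      (HasCompactSupport.of_compactSpace _)
  have hcont : Continuous (fun t : ℝ => (fourier k (t : T) : ℂ)) :=
    (fourier k).continuous.comp (AddCircle.continuous_mk' 1)
  have hI : IntervalIntegrable (fun t : ℝ => (fourier k (t : T) : ℂ)) volume 0 1 :=
    hcont.intervalIntegrable 0 1
  have hr0 : (∫ t in (0 : ℝ)..1, fr ((t : ℝ) : T)) = 0 := by
    have h1 : (∫ t in (0 : ℝ)..1, Complex.reCLM (fourier k ((t : ℝ) : T) : ℂ)) =
        Complex.reCLM (∫ t in (0 : ℝ)..1, (fourier k ((t : ℝ) : T) : ℂ)) :=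
      Complex.reCLM.intervalIntegral_comp_comm hI
    rw [integral_fourier hk, map_zero] at h1
    exact h1
  have hi0 : (∫ t in (0 : ℝ)..1, fi ((t : ℝ) : T)) = 0 := by
    have h1 : (∫ t in (0 : ℝ)..1, Complex.imCLM (fourier k ((t : ℝ) : T) : ℂ)) =
        Complex.imCLM (∫ t in (0 : ℝ)..1, (fourier k ((t : ℝ) : T) : ℂ)) :=
      Complex.imCLM.intervalIntegral_comp_comm hI
    rw [integral_fourier hk, map_zero] at h1
    exact h1
  have er : ∀ j, (∫ t, fr t ∂(ν j)) = (∫ t, (fourier k t : ℂ) ∂(ν j)).re := by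
    intro j
    exact Complex.reCLM.integral_comp_comm (hint j)
  have ei : ∀ j, (∫ t, fi t ∂(ν j)) = (∫ t, (fourier k t : ℂ) ∂(ν j)).im := by
    intro j
    exact Complex.imCLM.integral_comp_comm (hint j)
  have hr := hL fr
  have hi := hL fi
  rw [hr0] at hr
  rw [hi0] at hi
  simp only [er] at hr
  simp only [ei] at hi
  have h2 : Tendsto (fun j => (((∫ t, (fourier k t : ℂ) ∂(ν j)).re : ℝ) : ℂ) +
      (((∫ t, (fourier k t : ℂ) ∂(ν j)).im : ℝ) : ℂ) * Complex.I) atTop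
      (𝓝 (((0 : ℝ) : ℂ) + ((0 : ℝ) : ℂ) * Complex.I)) :=
    (Complex.continuous_ofReal.continuousAt.tendsto.comp hr).add
      ((Complex.continuous_ofReal.continuousAt.tendsto.comp hi).mul tendsto_const_nhds)
  simp only [Complex.re_add_im, Complex.ofReal_zero, zero_mul, add_zero] at h2
  exact h2

/-- Pigeonhole for `Frequently`. -/
lemma frequently_finset {β : Type*} (S : Finset β) (P : β → ℕ → Prop)
    (h : ∃ᶠ j in (atTop : Filter ℕ), ∃ p ∈ S, P p j) : ∃ p ∈ S, ∃ᶠ j in (atTop : Filter ℕ), P p j := by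
  by_contra hcon
  push Not at hcon
  have h1 : ∀ᶠ j in (atTop : Filter ℕ), ∀ p ∈ S, ¬ P p j := by
    rw [Filter.eventually_all_finset]
    intro p hp
    exact hcon p hp
  exact h (h1.mono (fun j hj => by
    rintro ⟨p, hp, hP⟩
    exact hj p hp hP))

end REDM

theorem specRED (hRD2 : SpecRD2) (hTRG : SI.SpecTRG) : SpecRED := by
  intro H μ hE hA f
  by_contra hcon
  rw [Metric.tendsto_atTop] at hcon
  push Not at hcon
  obtain ⟨ε, hε, hfr⟩ := hcon
  obtain ⟨M₀, τ, hτ, htrg⟩ := hTRG f (ε / 2) (by positivity)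
  choose x hx hμx using fun j => classify (hE j)
  let P : ℕ × ℤ → ℕ → Prop := fun p j => 1 ≤ p.1 ∧ p.2 ≠ 0 ∧
    τ < ‖∫ t, (fourier p.2 t : ℂ) ∂(U (Orb (p.1 • x j)))‖ ∧
    (addOrderOf (p.1 • x j)).Coprime 6 ∧ Red (√|(p.2 : ℝ)| / τ) (addOrderOf (p.1 • x j)) ∧
    p.1 * cnt (addOrderOf (p.1 • x j)) = cnt (addOrderOf (x j))
  let S : Finset (ℕ × ℤ) := range (M₀ + 1) ×ˢ Icc (-(M₀ : ℤ)) (M₀ : ℤ)
  have hbad : ∃ᶠ j in (atTop : Filter ℕ), ∃ p ∈ S, P p j := by
    rw [Filter.frequently_atTop]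
    intro N
    obtain ⟨j, hj, hd⟩ := hfr N
    refine ⟨j, hj, ?_⟩
    have hpr := (hE j).prob
    have hex : ∃ m : ℤ, m ≠ 0 ∧ |m| ≤ (M₀ : ℤ) ∧ τ < ‖∫ t, (fourier m t : ℂ) ∂(μ j)‖ := by
      by_contra hno
      push Not at hno
      have h1 := htrg (μ j) hpr hno
      rw [Real.dist_eq] at hd
      linarith
    obtain ⟨m, hm0, hmM, hm⟩ := hex
    rw [hμx j] at hm
    obtain ⟨M, n', hM1, hMn, hint, hco, hred, hcnt⟩ := hRD2 (x j) (hx j) m τ hm0 hτ hm
    have hn0 : n' ≠ 0 := by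
      rintro rfl
      exact hm0 (by rw [← hMn, mul_zero])
    have habs : (M : ℤ) * |n'| = |m| := by
      rw [← hMn, abs_mul, Nat.abs_cast]
    have hn1 : 1 ≤ |n'| := Int.one_le_abs hn0
    have hM0 : (1 : ℤ) ≤ (M : ℤ) := by exact_mod_cast hM1
    have hMle : (M : ℤ) ≤ M₀ := by nlinarith
    have hnle : |n'| ≤ (M₀ : ℤ) := by nlinarith
    refine ⟨(M, n'), ?_, hM1, hn0, ?_, hco, hred, hcnt⟩
    · simp only [S, mem_product, mem_range, mem_Icc]
      refine ⟨by omega, ?_⟩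
      exact abs_le.mp hnle
    · change τ < ‖∫ t, (fourier n' t : ℂ) ∂(U (Orb (M • x j)))‖
      rw [← hint]
      exact hm
  obtain ⟨⟨M, n'⟩, -, hP⟩ := REDM.frequently_finset S P hbad
  obtain ⟨φ, hφ, hPφ⟩ := Filter.extraction_of_frequently_atTop hP
  simp only [P] at hPφ
  have hM1 : 1 ≤ M := (hPφ 0).1
  have hn0 : n' ≠ 0 := (hPφ 0).2.1
  let ν : ℕ → Measure T := fun i => U (Orb (M • x (φ i)))
  have hEν : ∀ i, Erg (ν i) := fun i => erg_U (hPφ i).2.2.2.1
  have hL : Lim ν := by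
    refine H (√|(n' : ℝ)| / τ) ν ?_ ?_
    · intro i
      refine ⟨hEν i, ?_⟩
      intro y hy
      have hy' : y ∈ Orb (M • x (φ i)) := (U_singleton y).mp hy
      rw [order_of_mem_Orb (hPφ i).2.2.2.1 hy']
      exact (hPφ i).2.2.2.2.1
    · refine tendsto_atTop.2 (fun b => ?_)
      refine (tendsto_atTop.1 (hA.comp hφ.tendsto_atTop) (M * b)).mono (fun i hi => ?_)
      have h1 : atoms (ν i) = cnt (addOrderOf (M • x (φ i))) := atoms_U_Orb _
      have h2 : atoms (μ (φ i)) = M * atoms (ν i) := by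
        rw [h1, hμx (φ i), atoms_U_Orb, (hPφ i).2.2.2.2.2]
      simp only [Function.comp_apply] at hi
      rw [h2] at hi
      exact Nat.le_of_mul_le_mul_left hi (by omega)
  have h0 := REDM.lim_fourier (fun i => (hEν i).prob) hL hn0
  have h1 : Tendsto (fun i => ‖∫ t, (fourier n' t : ℂ) ∂(ν i)‖) atTop (𝓝 ‖(0 : ℂ)‖) := h0.norm
  rw [norm_zero] at h1
  have h2 : τ ≤ 0 := ge_of_tendsto' h1 (fun i => (hPφ i).2.2.1.le)
  linarith

end Pool.Agent.Lib.MP_715eb0_an.RO
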