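import Pool.Agent.Lib.MP_715eb0_an.RO.Spec

/-!
# SC1: a second moment (MP_715eb0_an)
-/

set_option autoImplicit false

open MeasureTheory Finset Filter
open scoped Topology ComplexConjugate

namespace Pool.Agent.Lib.MP_715eb0_an.RO

open Pool.Agent.Lib.MP_715eb0_an

namespace SC1M

/-- the character `e` -/
noncomputable def ch (y : T) : ℂ := (AddCircle.toCircle y : ℂ)

theorem ch_add (a b : T) : ch (a + b) = ch a * ch b := by
  unfold ch
  rw [AddCircle.toCircle_add, Circle.coe_mul]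

theorem ch_zero : ch 0 = 1 := by
  unfold ch
  rw [AddCircle.toCircle_zero, Circle.coe_one]

theorem ch_norm (a : T) : ‖ch a‖ = 1 := Circle.norm_coe _

theorem ch_conj (a : T) : conj (ch a) = ch (-a) := by
  unfold ch
  rw [AddCircle.toCircle_neg, Circle.coe_inv_eq_conj]

theorem ch_nsmul (u : ℕ) (y : T) : ch (u • y) = ch y ^ u := by
  unfold ch
  rw [AddCircle.toCircle_nsmul, Circle.coe_pow]

theorem ch_eq_one (y : T) (h : ch y = 1) : y = 0 := by
  unfold ch at h
  rw [Circle.coe_eq_one, ← AddCircle.toCircle_zero (T := (1 : ℝ))] at h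
  exact AddCircle.injective_toCircle one_ne_zero h

theorem geom (y : T) (s : ℕ) (hs : s • y = 0) (hy : y ≠ 0) : ∑ u ∈ range s, ch (u • y) = 0 := by
  have h1 : ch y ^ s = 1 := by rw [← ch_nsmul, hs, ch_zero]
  have h2 : ch y ≠ 1 := fun h => hy (ch_eq_one y h)
  rw [Finset.sum_congr rfl fun u _ => ch_nsmul u y, geom_sum_eq h2, h1, sub_self, zero_div]

theorem geom_le (y : T) (s : ℕ) (hs : s • y = 0) :
    ‖∑ u ∈ range s, ch (u • y)‖ ≤ if y = 0 then (s : ℝ) else 0 := by
  classical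
  by_cases hy : y = 0
  · rw [if_pos hy]
    refine (norm_sum_le _ _).trans ?_
    simp [ch_norm]
  · rw [if_neg hy, geom y s hs hy, norm_zero]

theorem count (x : T) (hx : (addOrderOf x).Coprime 6) (r s : ℕ) (hc : r.Coprime s)
    (hrs : r * s = addOrderOf x) (n : ℤ) (hn : n ≠ 0) (K : Finset ℕ)
    (hK : K ⊆ range (addOrderOf x)) (hK1 : ∀ h ∈ K, h ≡ 1 [MOD r]) (h' : ℕ) (hh' : h' ∈ K) :
    (K.filter fun h : ℕ => (n * h * r) • x - (n * h' * r) • x = 0).card ≤ n.natAbs := by
  classical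
  have hq : 0 < addOrderOf x := by
    rcases Nat.eq_zero_or_pos (addOrderOf x) with h | h
    · rw [h] at hx
      norm_num at hx
    · exact h
  have hr : 0 < r := by
    rcases Nat.eq_zero_or_pos r with h | h
    · rw [← hrs, h, zero_mul] at hq; exact absurd hq (lt_irrefl _)
    · exact h
  have hs : 0 < s := by
    rcases Nat.eq_zero_or_pos s with h | h
    · rw [← hrs, h, mul_zero] at hq; exact absurd hq (lt_irrefl _)
    · exact h
  set g : ℕ := Int.gcd (s : ℤ) n with hg
  have hgpos : 0 < g := Int.gcd_pos_of_ne_zero_right _ hn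
  have hgn : g ≤ n.natAbs :=
    Nat.le_of_dvd (Int.natAbs_pos.2 hn) (Int.gcd_dvd_natAbs_right _ _)
  have hgs : (g : ℤ) ∣ (s : ℤ) := Int.gcd_dvd_left _ _
  obtain ⟨s', hs'⟩ : g ∣ s := Int.natCast_dvd_natCast.1 hgs
  have hs'pos : 0 < s' := by
    rcases Nat.eq_zero_or_pos s' with h | h
    · rw [hs', h, mul_zero] at hs; exact absurd hs (lt_irrefl _)
    · exact h
  refine le_trans ?_ hgn
  have hkey : ∀ h ∈ K, (n * h * r) • x - (n * h' * r) • x = 0 → h % (r * s') = h' % (r * s') := by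
    intro h hh he
    rw [← sub_smul, ← addOrderOf_dvd_iff_zsmul_eq_zero, ← hrs] at he
    have e1 : ((r * s : ℕ) : ℤ) = r * s := by push_cast; ring
    rw [e1, show n * (h : ℤ) * r - n * h' * r = r * (n * (h - h')) by ring] at he
    have e2 : (s : ℤ) ∣ n * (h - h') :=
      Int.dvd_of_mul_dvd_mul_left (by exact_mod_cast hr.ne') he
    have e3 : (s : ℤ) ∣ g * ((h : ℤ) - h') := by
      rw [hg, Int.gcd_eq_gcd_ab]
      rw [show ((s : ℤ) * Int.gcdA s n + n * Int.gcdB s n) * ((h : ℤ) - h') =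
        s * (Int.gcdA s n * (h - h')) + (n * (h - h')) * Int.gcdB s n by ring]
      exact dvd_add (dvd_mul_right _ _) (e2.mul_right _)
    have e4 : (s' : ℤ) ∣ (h : ℤ) - h' := by
      have e5 : (s : ℤ) = g * s' := by rw [hs']; push_cast; rfl
      rw [e5] at e3
      exact Int.dvd_of_mul_dvd_mul_left (by exact_mod_cast hgpos.ne') e3
    have e6 : (r : ℤ) ∣ (h : ℤ) - h' := by
      have e7 : h' ≡ h [MOD r] := (hK1 h' hh').trans (hK1 h hh).symm
      exact (Nat.modEq_iff_dvd.1 e7)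
    have e8 : IsCoprime (r : ℤ) (s' : ℤ) := by
      rw [Nat.isCoprime_iff_coprime]
      exact Nat.Coprime.coprime_dvd_right ⟨g, by rw [hs', mul_comm]⟩ hc
    have e9 : ((r * s' : ℕ) : ℤ) ∣ (h : ℤ) - h' := by
      push_cast
      exact e8.mul_dvd e6 e4
    exact (Nat.modEq_iff_dvd.2 e9).symm
  have hd : 0 < r * s' := Nat.mul_pos hr hs'pos
  calc (K.filter fun h : ℕ => (n * h * r) • x - (n * h' * r) • x = 0).card ≤ (range g).card := by
        refine Finset.card_le_card_of_injOn (fun h => h / (r * s')) ?_ ?_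
        · intro h hh
          have hh1 := (mem_filter.1 (mem_coe.1 hh)).1
          have h2 := mem_range.1 (hK hh1)
          rw [← hrs, hs'] at h2
          simp only [coe_range, Set.mem_Iio]
          rw [Nat.div_lt_iff_lt_mul hd]
          calc h < r * (g * s') := h2
            _ = g * (r * s') := by ring
        · intro h hh k hk hhk
          have h1 := mem_filter.1 (mem_coe.1 hh)
          have h2 := mem_filter.1 (mem_coe.1 hk)
          have h3 : h % (r * s') = k % (r * s') := (hkey h h1.1 h1.2).trans (hkey k h2.1 h2.2).symm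
          have h4 : h / (r * s') = k / (r * s') := hhk
          rw [← Nat.div_add_mod h (r * s'), ← Nat.div_add_mod k (r * s'), h3, h4]
    _ = g := card_range g

end SC1M

open SC1M in
theorem specSC1 : SpecSC1 := by
  classical
  intro x hx r s hc hrs n hn K hK hK1
  set a : ℕ → T := fun h => (n * h) • x with ha
  set b : ℕ → T := fun h => (n * h * r) • x with hb
  have hb0 : ∀ h, s • b h = 0 := by
    intro h
    have e1 : s • b h = (n * h) • (addOrderOf x • x) := by
      rw [← hrs]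
      simp only [hb, ← natCast_zsmul, ← mul_smul]
      congr 1
      push_cast
      ring
    rw [e1, addOrderOf_nsmul_eq_zero, smul_zero]
  have hval : ∀ u h : ℕ, (fourier n (h • ((1 + r * u) • x)) : ℂ) = ch (a h + u • b h) := by
    intro u h
    rw [fourier_apply]
    change ch (n • (h • ((1 + r * u) • x))) = _
    congr 1
    simp only [ha, hb, ← natCast_zsmul, ← mul_smul, ← add_smul]
    congr 1
    push_cast
    ring
  have hsq : ∀ u : ℕ, ((‖∑ h ∈ K, (fourier n (h • ((1 + r * u) • x)) : ℂ)‖ ^ 2 : ℝ) : ℂ) =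
      ∑ h ∈ K, ∑ h' ∈ K, ch (a h - a h') * ch (u • (b h - b h')) := by
    intro u
    rw [Finset.sum_congr rfl fun h _ => hval u h]
    push_cast
    rw [← Complex.mul_conj', map_sum, Finset.sum_mul_sum]
    refine Finset.sum_congr rfl fun h _ => Finset.sum_congr rfl fun h' _ => ?_
    rw [ch_conj, ← ch_add, ← ch_add]
    congr 1
    rw [smul_sub]
    abel
  have htot : ((∑ u ∈ range s, ‖∑ h ∈ K, (fourier n (h • ((1 + r * u) • x)) : ℂ)‖ ^ 2 : ℝ) : ℂ) =
      ∑ h' ∈ K, ∑ h ∈ K, ch (a h - a h') * ∑ u ∈ range s, ch (u • (b h - b h')) := by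
    rw [Complex.ofReal_sum, Finset.sum_congr rfl fun u _ => hsq u]
    simp_rw [Finset.mul_sum]
    conv_lhs => rw [Finset.sum_comm]
    conv_rhs => rw [Finset.sum_comm]
    refine Finset.sum_congr rfl fun h _ => ?_
    exact Finset.sum_comm
  have h1 : ∑ u ∈ range s, ‖∑ h ∈ K, (fourier n (h • ((1 + r * u) • x)) : ℂ)‖ ^ 2 ≤
      ∑ h' ∈ K, ∑ h ∈ K, if b h - b h' = 0 then (s : ℝ) else 0 := by
    have h2 : (∑ u ∈ range s, ‖∑ h ∈ K, (fourier n (h • ((1 + r * u) • x)) : ℂ)‖ ^ 2 : ℝ) =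
        ‖((∑ u ∈ range s, ‖∑ h ∈ K, (fourier n (h • ((1 + r * u) • x)) : ℂ)‖ ^ 2 : ℝ) : ℂ)‖ := by
      rw [Complex.norm_real, Real.norm_eq_abs, abs_of_nonneg]
      exact Finset.sum_nonneg fun u _ => by positivity
    rw [h2, htot]
    refine (norm_sum_le _ _).trans (Finset.sum_le_sum fun h' _ => ?_)
    refine (norm_sum_le _ _).trans (Finset.sum_le_sum fun h _ => ?_)
    rw [norm_mul, ch_norm, one_mul]
    refine geom_le _ s ?_
    rw [smul_sub, hb0, hb0, sub_zero]
  refine h1.trans ?_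
  have h3 : ∀ h' ∈ K, (∑ h ∈ K, if b h - b h' = 0 then (s : ℝ) else 0) ≤ s * |(n : ℝ)| := by
    intro h' hh'
    rw [← Finset.sum_filter, Finset.sum_const, nsmul_eq_mul, mul_comm]
    refine mul_le_mul_of_nonneg_left ?_ (Nat.cast_nonneg s)
    have h4 := count x hx r s hc hrs n hn K hK hK1 h' hh'
    have h5 : |(n : ℝ)| = (n.natAbs : ℝ) := by
      rw [Nat.cast_natAbs, Int.cast_abs]
    rw [h5]
    exact_mod_cast h4
  calc (∑ h' ∈ K, ∑ h ∈ K, if b h - b h' = 0 then (s : ℝ) else 0) ≤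
        ∑ h' ∈ K, (s : ℝ) * |(n : ℝ)| := Finset.sum_le_sum h3
    _ = s * |(n : ℝ)| * K.card := by
      rw [Finset.sum_const, nsmul_eq_mul]
      ring

end Pool.Agent.Lib.MP_715eb0_an.RO
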