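import Pool.Agent.Lib.MP_715eb0_an.RO.Spec

/-! # Module SC2: the bound for a factorization -/

set_option autoImplicit false

open MeasureTheory Finset Filter
open scoped Topology

namespace Pool.Agent.Lib.MP_715eb0_an.RO

open Pool.Agent.Lib.MP_715eb0_an

namespace SC2M

lemma mem_Ker {q r h : ℕ} : h ∈ Ker q r ↔ h ∈ R q ∧ h ≡ 1 [MOD r] := by
  classical
  simp [Ker]

lemma R_lt {q h : ℕ} (hh : h ∈ R q) : h < q := by
  classical
  have := hh
  simp only [R, mem_filter, mem_range] at this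
  exact this.1

lemma R_coprime {q h : ℕ} (hq : q.Coprime 6) (hh : h ∈ R q) : h.Coprime q := by
  obtain ⟨i, j, hij⟩ := (mem_R (pos_of_coprime hq)).1 hh
  have h1 := coprime_two_three hq i j
  rw [← hij]
  exact (Nat.ModEq.gcd_eq (Nat.mod_modEq _ _)).trans h1

/-- multiplication by a residue maps the orbit to itself -/
lemma smul_mem {x : T} (hx : (addOrderOf x).Coprime 6) {h : ℕ} (hh : h ∈ R (addOrderOf x)) {w : T}
    (hw : w ∈ Orb x) : h • w ∈ Orb x := by
  have ho := order_of_mem_Orb hx hw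
  obtain ⟨i, j, hij⟩ := (mem_R (pos_of_coprime hx)).1 hh
  have hx0 : 0 < addOrderOf w := by rw [ho]; exact pos_of_coprime hx
  have h1 : h • w ∈ Orb w :=
    (mem_Orb hx0).2 ⟨i, j, by rw [← hij, ← ho, mod_addOrderOf_nsmul]⟩
  rwa [Orb_eq hx hw] at h1

lemma smul_inj {q h : ℕ} {w w' : T} (hq : h.Coprime q) (hw : addOrderOf w = q)
    (hw' : addOrderOf w' = q) (he : h • w = h • w') : w = w' := by
  have h1 : h • (w - w') = 0 := by rw [nsmul_sub, he, sub_self]
  have h2 : q • (w - w') = 0 := by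
    rw [nsmul_sub]
    have a1 : q • w = 0 := by rw [← hw]; exact addOrderOf_nsmul_eq_zero w
    have a2 : q • w' = 0 := by rw [← hw']; exact addOrderOf_nsmul_eq_zero w'
    rw [a1, a2, sub_self]
  have h3 : addOrderOf (w - w') = 1 := Nat.eq_one_of_dvd_coprimes hq
    (addOrderOf_dvd_of_nsmul_eq_zero h1) (addOrderOf_dvd_of_nsmul_eq_zero h2)
  rw [AddMonoid.addOrderOf_eq_one_iff, sub_eq_zero] at h3
  exact h3

lemma sum_smul' {x : T} (hx : (addOrderOf x).Coprime 6) {h : ℕ} (hh : h ∈ R (addOrderOf x))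
    (G : T → ℂ) : ∑ w ∈ Orb x, G (h • w) = ∑ w ∈ Orb x, G w := by
  classical
  have hinj : Set.InjOn (fun w : T => h • w) (Orb x : Set T) := by
    intro w hw w' hw' he
    exact smul_inj (R_coprime hx hh) (order_of_mem_Orb hx hw) (order_of_mem_Orb hx hw') he
  have himg : (Orb x).image (fun w : T => h • w) = Orb x := by
    apply Finset.eq_of_subset_of_card_le
    · intro w hw
      obtain ⟨v, hv, rfl⟩ := Finset.mem_image.1 hw
      exact smul_mem hx hh hv
    · rw [Finset.card_image_of_injOn hinj]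
  conv_rhs => rw [← himg]
  rw [Finset.sum_image (fun a ha b hb => hinj ha hb)]

lemma F_smul {q : ℕ} {K : Finset ℕ} (hK : ∀ h ∈ K, h < q)
    (hc : ∀ h ∈ K, ∀ h' ∈ K, h * h' % q ∈ K) {h : ℕ} (hh : h ∈ K) (hcop : h.Coprime q) {w : T}
    (hw : addOrderOf w = q) (G : T → ℂ) :
    ∑ g ∈ K, G (g • (h • w)) = ∑ g ∈ K, G (g • w) := by
  classical
  have e : ∀ g : ℕ, g • (h • w) = (g * h % q) • w := by
    intro g
    rw [← hw, mod_addOrderOf_nsmul, mul_nsmul']
  have hinj : Set.InjOn (fun g : ℕ => g * h % q) (K : Set ℕ) := by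
    intro g hg g' hg' he
    have h1 : g ≡ g' [MOD q] := Nat.ModEq.cancel_right_of_coprime hcop.symm he
    exact Nat.ModEq.eq_of_lt_of_lt h1 (hK g hg) (hK g' hg')
  have himg : K.image (fun g : ℕ => g * h % q) = K := by
    apply Finset.eq_of_subset_of_card_le
    · intro g hg
      obtain ⟨g', hg', rfl⟩ := Finset.mem_image.1 hg
      exact hc g' hg' h hh
    · rw [Finset.card_image_of_injOn hinj]
  conv_rhs => rw [← himg]
  rw [Finset.sum_image (fun a ha b hb => hinj ha hb)]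
  exact Finset.sum_congr rfl fun g _ => by rw [e]

lemma exists_u {r s h : ℕ} (hr : 0 < r) (hs : 0 < s) (hh : h ≡ 1 [MOD r]) :
    ∃ u < s, h ≡ 1 + r * u [MOD r * s] := by
  have h1 : 1 ≤ h + r * s := by
    have : 0 < r * s := Nat.mul_pos hr hs
    omega
  have h2 : 1 ≡ h + r * s [MOD r] := by
    have : h + r * s ≡ 1 + 0 [MOD r] := Nat.ModEq.add hh (Nat.modEq_zero_iff_dvd.2 ⟨s, rfl⟩)
    exact this.symm
  obtain ⟨a, ha⟩ := (Nat.modEq_iff_dvd' h1).1 h2
  refine ⟨a % s, Nat.mod_lt _ hs, ?_⟩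
  have h3 : r * (a % s) ≡ r * a [MOD r * s] := Nat.ModEq.mul_left' r (Nat.mod_modEq a s)
  have h4 : 1 + r * a = h + r * s := by omega
  have h5 : 1 + r * (a % s) ≡ h + r * s [MOD r * s] := by
    rw [← h4]
    exact Nat.ModEq.add_left 1 h3
  have h6 : h + r * s ≡ h + 0 [MOD r * s] :=
    Nat.ModEq.add_left h (Nat.modEq_zero_iff_dvd.2 (dvd_refl _))
  exact (h5.trans h6).symm

end SC2M

open SC2M in
theorem specSC2 (hKER : SpecKER) (hSC1 : SpecSC1) : SpecSC2 := by
  classical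
  intro x hx r s hrs hq n hn
  have hq0 := pos_of_coprime hx
  set q := addOrderOf x with hqdef
  obtain ⟨h1K, hcl, hcard⟩ := hKER q r hx ⟨s, hq.symm⟩
  set K := Ker q r with hKdef
  have hKR : ∀ h ∈ K, h ∈ R q := fun h hh => (mem_Ker.1 hh).1
  have hK1 : ∀ h ∈ K, h ≡ 1 [MOD r] := fun h hh => (mem_Ker.1 hh).2
  have hKlt : ∀ h ∈ K, h < q := fun h hh => R_lt (hKR h hh)
  have hKpos : 0 < K.card := Finset.card_pos.2 ⟨_, h1K⟩
  have hr0 : 0 < r := by
    rcases Nat.eq_zero_or_pos r with h | h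
    · subst h
      rw [zero_mul] at hq
      omega
    · exact h
  have hs0 : 0 < s := by
    rcases Nat.eq_zero_or_pos s with h | h
    · subst h
      rw [mul_zero] at hq
      omega
    · exact h
  set F : T → ℂ := fun w => ∑ h ∈ K, (fourier n (h • w) : ℂ) with hF
  -- (b)
  have hb : ∀ w ∈ Orb x, ‖F w‖ ^ 2 ≤ s * |(n : ℝ)| := by
    intro w hw
    have ho : addOrderOf w = q := order_of_mem_Orb hx hw
    have hex : ∀ h ∈ K, ∃ u < s, h ≡ 1 + r * u [MOD q] := by
      intro h hh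
      have := exists_u hr0 hs0 (hK1 h hh)
      rwa [hq] at this
    choose! u hu1 hu2 using hex
    have huinj : Set.InjOn u (K : Set ℕ) := by
      intro h hh h' hh' he
      have e1 := hu2 h hh
      have e2 := hu2 h' hh'
      rw [he] at e1
      exact Nat.ModEq.eq_of_lt_of_lt (e1.trans e2.symm) (hKlt h hh) (hKlt h' hh')
    have hs1 := hSC1 w (by rw [ho]; exact hx) r s hrs (by rw [ho]; exact hq) n hn K
      (fun h hh => by rw [ho, mem_range]; exact hKlt h hh) hK1
    have hsum : (K.card : ℝ) * ‖F w‖ ^ 2 ≤ ∑ v ∈ range s, ‖F ((1 + r * v) • w)‖ ^ 2 := by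
      calc (K.card : ℝ) * ‖F w‖ ^ 2 = ∑ h ∈ K, ‖F ((1 + r * u h) • w)‖ ^ 2 := by
            rw [← nsmul_eq_mul, ← Finset.sum_const]
            refine Finset.sum_congr rfl fun h hh => ?_
            have e1 : (1 + r * u h) • w = h • w := by
              rw [nsmul_eq_nsmul_iff_modEq, ho]
              exact (hu2 h hh).symm
            have e2 : F (h • w) = F w :=
              F_smul hKlt hcl hh (R_coprime hx (hKR h hh)) ho (fun z => (fourier n z : ℂ))
            rw [e1, e2]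
        _ = ∑ v ∈ K.image u, ‖F ((1 + r * v) • w)‖ ^ 2 := by
            rw [Finset.sum_image (fun a ha b hb => huinj ha hb)]
        _ ≤ ∑ v ∈ range s, ‖F ((1 + r * v) • w)‖ ^ 2 := by
            refine Finset.sum_le_sum_of_subset_of_nonneg ?_ (fun _ _ _ => sq_nonneg _)
            intro v hv
            obtain ⟨h, hh, rfl⟩ := Finset.mem_image.1 hv
            exact mem_range.2 (hu1 h hh)
    have h3 : (K.card : ℝ) * ‖F w‖ ^ 2 ≤ K.card * (s * |(n : ℝ)|) := by
      refine hsum.trans (hs1.trans (le_of_eq ?_))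
      ring
    exact le_of_mul_le_mul_left h3 (by exact_mod_cast hKpos)
  -- (a)
  have ha : ∑ w ∈ Orb x, F w = (K.card : ℂ) * ∑ w ∈ Orb x, (fourier n w : ℂ) := by
    rw [hF]
    rw [Finset.sum_comm]
    rw [← nsmul_eq_mul, ← Finset.sum_const]
    exact Finset.sum_congr rfl fun h hh => sum_smul' hx (hKR h hh) (fun z => (fourier n z : ℂ))
  -- (c)
  have hc : (K.card : ℝ) * ‖∑ w ∈ Orb x, (fourier n w : ℂ)‖ ≤
      (K.card : ℝ) * (√((s : ℝ) * |(n : ℝ)|) * cnt r) := by
    calc (K.card : ℝ) * ‖∑ w ∈ Orb x, (fourier n w : ℂ)‖ = ‖∑ w ∈ Orb x, F w‖ := by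
          rw [ha, norm_mul, Complex.norm_natCast]
      _ ≤ ∑ w ∈ Orb x, ‖F w‖ := norm_sum_le _ _
      _ ≤ ∑ w ∈ Orb x, √((s : ℝ) * |(n : ℝ)|) := by
          refine Finset.sum_le_sum fun w hw => ?_
          exact Real.le_sqrt_of_sq_le (hb w hw)
      _ = (cnt q : ℝ) * √((s : ℝ) * |(n : ℝ)|) := by
          rw [Finset.sum_const, nsmul_eq_mul, card_Orb]
      _ = (K.card : ℝ) * (√((s : ℝ) * |(n : ℝ)|) * cnt r) := by
          rw [← hcard]
          push_cast
          ring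
  exact le_of_mul_le_mul_left hc (by exact_mod_cast hKpos)

end Pool.Agent.Lib.MP_715eb0_an.RO
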