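import Pool.Agent.Lib.MP_715eb0_an.RO.KER
import Pool.Agent.Lib.MP_715eb0_an.RO.CYC
import Pool.Agent.Lib.MP_715eb0_an.RO.FVN
import Pool.Agent.Lib.MP_715eb0_an.RO.KRM
import Pool.Agent.Lib.MP_715eb0_an.RO.SC1
import Pool.Agent.Lib.MP_715eb0_an.RO.SC2
import Pool.Agent.Lib.MP_715eb0_an.RO.PSH
import Pool.Agent.Lib.MP_715eb0_an.RO.RD2
import Pool.Agent.Lib.MP_715eb0_an.RO.RED
import Pool.Agent.Lib.MP_715eb0_an.SI.AVG
import Pool.Agent.Lib.MP_715eb0_an.SI.TRG
import Pool.Agent.Lib.MP_715eb0_an.SI.FIN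

/-!
# MP_715eb0_an: reduction to correlated orders (assembly)
-/

open MeasureTheory Finset Filter
open scoped Topology

namespace Pool.Agent.Lib.MP_715eb0_an.RO

open Pool.Agent.Lib.MP_715eb0_an

theorem ker : SpecKER := specKER
theorem fvn : SpecFVN := specFVN ker specCYC
theorem krm : SpecKRM := specKRM ker specCYC
theorem sc2 : SpecSC2 := specSC2 ker specSC1
theorem psh : SpecPSH := specPSH SI.specAVG
theorem rd2 : SpecRD2 := specRD2 fvn sc2 krm psh
theorem red : SpecRED := specRED rd2 SI.specTRG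

/-- The Fourier coefficients. -/
theorem coeff (μ : Measure T) (hμ : Erg μ) (x : T) (hx : μ {x} ≠ 0) :
    ∃ M : ℕ, 1 ≤ M ∧ M ∣ addOrderOf x ∧ M * cnt (rad (addOrderOf x)) = cnt (addOrderOf x) ∧
      (∀ n : ℤ, ¬ ((M : ℤ) ∣ n) → ∫ t, (fourier n t : ℂ) ∂μ = 0) ∧
      ∀ r s : ℕ, r.Coprime s → r * s = addOrderOf x / M → ∀ n : ℤ, n ≠ 0 →
        ‖∫ t, (fourier ((M : ℤ) * n) t : ℂ) ∂μ‖ * cnt (addOrderOf x / M) ≤
          √((s : ℝ) * |(n : ℝ)|) * cnt r := by
  obtain ⟨hU, _⟩ := SI.FINM.eq_U hμ hx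
  have hq : (addOrderOf x).Coprime 6 := by
    obtain ⟨x₀, h1, h2⟩ := classify hμ
    have h3 : x ∈ Orb x₀ := by
      rw [h2] at hx
      exact (U_singleton x).mp hx
    rw [order_of_mem_Orb h1 h3]
    exact h1
  have hq0 : 0 < addOrderOf x := pos_of_coprime hq
  obtain ⟨h1, h2, h3, h4⟩ := krm (addOrderOf x) _ hq rfl
  have h5 := (ker (addOrderOf x) (rad (addOrderOf x)) hq (Nat.prod_primeFactors_dvd _)).2.2
  set M := (Ker (addOrderOf x) (rad (addOrderOf x))).card with hM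
  refine ⟨M, h1, h2, h5, ?_, ?_⟩
  · intro n hn
    have h6 := fvn x hq n hn
    have h7 := integral_U (S := Orb x) (fourier n : C(T, ℂ))
    rw [hU, h7, h6, mul_zero]
  · intro r s hrs hD n hn
    have hord : addOrderOf (M • x) = addOrderOf x / M :=
      addOrderOf_nsmul_of_dvd (by omega) h2
    have hcop : (addOrderOf (M • x)).Coprime 6 := by
      rw [hord]
      exact Nat.Coprime.coprime_dvd_left (Nat.div_dvd_of_dvd h2) hq
    have h6 := sc2 (M • x) hcop r s hrs (by rw [hord]; exact hD) n hn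
    have h7 := integral_U (S := Orb (M • x)) (fourier n : C(T, ℂ))
    have h8 := psh x hq M n
    rw [hU, h8, h7, norm_mul, norm_inv, Complex.norm_natCast, card_Orb, hord]
    have hc : (0 : ℝ) < cnt (addOrderOf x / M) := by
      have : 0 < addOrderOf x / M := by rw [← hord]; exact pos_of_coprime hcop
      exact_mod_cast cnt_pos this
    calc (cnt (addOrderOf x / M) : ℝ)⁻¹ * ‖∑ y ∈ Orb (M • x), (fourier n y : ℂ)‖ *
          cnt (addOrderOf x / M) = ‖∑ y ∈ Orb (M • x), (fourier n y : ℂ)‖ := by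
          field_simp
      _ ≤ _ := h6

end Pool.Agent.Lib.MP_715eb0_an.RO
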