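import Pool.Agent.Lib.MP_715eb0_an.RO.Spec2
import Pool.Agent.Lib.MP_715eb0_an.RO.SC1
import Pool.Agent.Lib.MP_715eb0_an.RO.SC2

/-! # Module RBG: the relative bound of Bourgain, Glibichuk and Konyagin -/

set_option autoImplicit false

open MeasureTheory Finset Filter
open scoped Topology

namespace Pool.Agent.Lib.MP_715eb0_an.RO

open Pool.Agent.Lib.MP_715eb0_an

namespace RBGM

open SC1M SC2M

/-- a nonzero point killed by `p` gives a nonzero frequency modulo `p` -/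
theorem freq {p : ℕ} [Fact p.Prime] {Z : T} (hp : p • Z = 0) (hZ : Z ≠ 0) :
    ∃ y : ZMod p, y ≠ 0 ∧ ∀ h : ℕ, ch (h • Z) = ZMod.stdAddChar ((h : ZMod p) * y) := by
  have hp0 : (p : ℝ) ≠ 0 := by exact_mod_cast (Fact.out : p.Prime).ne_zero
  obtain ⟨t, rfl⟩ := QuotientAddGroup.mk_surjective Z
  change p • ((t : ℝ) : T) = 0 at hp
  change ((t : ℝ) : T) ≠ 0 at hZ
  rw [← AddCircle.coe_nsmul, AddCircle.coe_eq_zero_iff] at hp
  obtain ⟨m, hm⟩ := hp
  rw [zsmul_eq_mul, mul_one, nsmul_eq_mul] at hm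
  refine ⟨(m : ZMod p), ?_, fun h => ?_⟩
  · intro h0
    rw [ZMod.intCast_zmod_eq_zero_iff_dvd] at h0
    obtain ⟨c, hc⟩ := h0
    apply hZ
    rw [AddCircle.coe_eq_zero_iff]
    refine ⟨c, ?_⟩
    rw [zsmul_eq_mul, mul_one]
    rw [hc] at hm
    push_cast at hm
    exact mul_left_cancel₀ hp0 hm
  · have e1 : ((h : ZMod p) * (m : ZMod p)) = (((h : ℤ) * m : ℤ) : ZMod p) := by push_cast; rfl
    rw [e1, ZMod.stdAddChar_coe]
    change (AddCircle.toCircle (h • ((t : ℝ) : T)) : ℂ) = _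
    rw [← AddCircle.coe_nsmul, AddCircle.toCircle_apply_mk, Circle.coe_exp]
    congr 1
    have ht : t = m / p := by rw [hm]; field_simp
    rw [nsmul_eq_mul, ht]
    push_cast
    ring

end RBGM

open RBGM SC1M SC2M in
theorem specRBG (hKER : SpecKER) (hBGK : SpecBGK) : SpecRBG := by
  classical
  intro δ hδ
  obtain ⟨τ, hτ, P, hP⟩ := hBGK δ hδ
  refine ⟨τ, hτ, P, ?_⟩
  intro x hx r p hp hPp hrp hq hcnt n hn
  have : Fact p.Prime := ⟨hp⟩
  have hq0 := pos_of_coprime hx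
  set q := addOrderOf x with hqdef
  obtain ⟨h1K, hcl, hcard⟩ := hKER q r hx ⟨p, hq.symm⟩
  set K := Ker q r with hKdef
  have hKR : ∀ h ∈ K, h ∈ R q := fun h hh => (mem_Ker.1 hh).1
  have hK1 : ∀ h ∈ K, h ≡ 1 [MOD r] := fun h hh => (mem_Ker.1 hh).2
  have hKlt : ∀ h ∈ K, h < q := fun h hh => R_lt (hKR h hh)
  have hKpos : 0 < K.card := Finset.card_pos.2 ⟨_, h1K⟩
  have hpq : p ∣ q := ⟨r, by rw [← hq, mul_comm]⟩
  set K' : Finset (ZMod p) := K.image (fun h : ℕ => (h : ZMod p)) with hK'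
  have hinj : Set.InjOn (fun h : ℕ => (h : ZMod p)) (K : Set ℕ) := by
    intro h hh h' hh' he
    have e1 : h ≡ h' [MOD p] := (ZMod.natCast_eq_natCast_iff h h' p).1 he
    have e2 : h ≡ h' [MOD r] := (hK1 h hh).trans (hK1 h' hh').symm
    have e3 : h ≡ h' [MOD (r * p)] := (Nat.modEq_and_modEq_iff_modEq_mul hrp).1 ⟨e2, e1⟩
    rw [hq] at e3
    exact Nat.ModEq.eq_of_lt_of_lt e3 (hKlt h hh) (hKlt h' hh')
  have hcardK' : K'.card = K.card := Finset.card_image_of_injOn hinj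
  have h0K' : (0 : ZMod p) ∉ K' := by
    intro h0
    obtain ⟨h, hh, he⟩ := Finset.mem_image.1 h0
    have e1 : p ∣ h := (ZMod.natCast_eq_zero_iff h p).1 he
    have e2 : h.Coprime q := R_coprime hx (hKR h hh)
    exact hp.one_lt.ne' (Nat.eq_one_of_dvd_coprimes e2 e1 hpq)
  have hclK' : ∀ g ∈ K', ∀ h ∈ K', g * h ∈ K' := by
    intro g hg h hh
    obtain ⟨a, ha, rfl⟩ := Finset.mem_image.1 hg
    obtain ⟨b, hb, rfl⟩ := Finset.mem_image.1 hh
    refine Finset.mem_image.2 ⟨a * b % q, hcl a ha b hb, ?_⟩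
    have e1 : a * b % q ≡ a * b [MOD p] := (Nat.mod_modEq (a * b) q).of_dvd hpq
    have e2 := (ZMod.natCast_eq_natCast_iff (a * b % q) (a * b) p).2 e1
    change ((a * b % q : ℕ) : ZMod p) = _
    rw [e2]
    push_cast
    rfl
  have hr0 : 0 < r := by
    rcases Nat.eq_zero_or_pos r with h | h
    · rw [h, zero_mul] at hq
      omega
    · exact h
  have hcr : 0 < cnt r := by
    rcases Nat.eq_zero_or_pos (cnt r) with h | h
    · exfalso
      have hc0 : 0 < cnt q := by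
        unfold cnt
        exact Finset.card_pos.2 ⟨_, (mem_Ker.1 h1K).1⟩
      rw [← hcard, h, mul_zero] at hc0
      exact lt_irrefl _ hc0
    · exact h
  have hbig : (p : ℝ) ^ δ ≤ K'.card := by
    rw [hcardK']
    rw [← hcard] at hcnt
    push_cast at hcnt
    exact le_of_mul_le_mul_right hcnt (by exact_mod_cast hcr)
  have hB := hP p hPp K' h0K' hclK' hbig
  set F : T → ℂ := fun w => ∑ h ∈ K, (fourier n (h • w) : ℂ) with hF
  have hb : ∀ w ∈ Orb x, ‖F w‖ ≤ (p : ℝ) ^ (-τ) * K.card := by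
    intro w hw
    have ho : addOrderOf w = q := order_of_mem_Orb hx hw
    have hc1 : IsCoprime (r : ℤ) (p : ℤ) := Nat.isCoprime_iff_coprime.2 hrp
    obtain ⟨u, v, huv⟩ := hc1
    set Z : T := (n * (u * r)) • w with hZ
    have hZp : p • Z = 0 := by
      rw [hZ, ← natCast_zsmul, ← mul_smul,
        show (p : ℤ) * (n * (u * r)) = (n * u) * ((r * p : ℕ) : ℤ) by push_cast; ring, hq, mul_smul,
        natCast_zsmul, ← ho, addOrderOf_nsmul_eq_zero, smul_zero]
    have hZ0 : Z ≠ 0 := by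
      intro h0
      rw [hZ, ← addOrderOf_dvd_iff_zsmul_eq_zero, ho, ← hq,
        show n * (u * (r : ℤ)) = r * (n * u) by ring] at h0
      push_cast at h0
      have e1 : (p : ℤ) ∣ n * u := Int.dvd_of_mul_dvd_mul_left (by exact_mod_cast hr0.ne') h0
      have hpi : Prime (p : ℤ) := Nat.prime_iff_prime_int.1 hp
      rcases hpi.dvd_or_dvd e1 with h | h
      · exact hn h
      · have e2 : (p : ℤ) ∣ 1 := by
          rw [← huv]
          exact dvd_add (h.mul_right _) (dvd_mul_left _ _)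
        exact hpi.not_dvd_one e2
    obtain ⟨y, hy, hyc⟩ := freq hZp hZ0
    set z' : T := (n * (v * p)) • w with hz'
    have hsplit : ∀ h ∈ K, (fourier n (h • w) : ℂ) =
        ch z' * ZMod.stdAddChar ((h : ZMod p) * y) := by
      intro h hh
      rw [fourier_apply]
      change ch (n • (h • w)) = _
      rw [← hyc h, ← ch_add]
      congr 1
      have e1 : (h : ℤ) • z' = z' := by
        obtain ⟨c, hc⟩ := (Nat.modEq_iff_dvd.1 (hK1 h hh).symm)
        have e2 : (h : ℤ) = 1 + r * c := by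
          have : (h : ℤ) - 1 = r * c := by exact_mod_cast hc
          linarith
        rw [e2, add_smul, one_smul, hz', ← mul_smul,
          show (r : ℤ) * c * (n * (v * p)) = (c * n * v) * ((r * p : ℕ) : ℤ) by push_cast; ring, hq,
          mul_smul (c * n * v), natCast_zsmul, ← ho, addOrderOf_nsmul_eq_zero, smul_zero, add_zero]
      rw [← e1, hz', hZ, ← natCast_zsmul, ← natCast_zsmul, ← mul_smul, ← mul_smul, ← mul_smul,
        ← add_smul]
      congr 1
      calc n * (h : ℤ) = n * h * (u * r + v * p) := by rw [huv, mul_one]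
        _ = _ := by ring
    have e3 : F w = ch z' * ∑ h ∈ K', ZMod.stdAddChar (h * y) := by
      rw [hF]
      simp only
      rw [Finset.sum_congr rfl hsplit, ← Finset.mul_sum, hK',
        Finset.sum_image (fun a ha b hb => hinj ha hb)]
    rw [e3, norm_mul, ch_norm, one_mul, ← hcardK']
    exact hB y hy
  have ha : ∑ w ∈ Orb x, F w = (K.card : ℂ) * ∑ w ∈ Orb x, (fourier n w : ℂ) := by
    rw [hF]
    rw [Finset.sum_comm]
    rw [← nsmul_eq_mul, ← Finset.sum_const]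
    exact Finset.sum_congr rfl fun h hh => sum_smul' hx (hKR h hh) (fun z => (fourier n z : ℂ))
  have hc : (K.card : ℝ) * ‖∑ w ∈ Orb x, (fourier n w : ℂ)‖ ≤
      (K.card : ℝ) * ((p : ℝ) ^ (-τ) * cnt q) := by
    calc (K.card : ℝ) * ‖∑ w ∈ Orb x, (fourier n w : ℂ)‖ = ‖∑ w ∈ Orb x, F w‖ := by
          rw [ha, norm_mul, Complex.norm_natCast]
      _ ≤ ∑ w ∈ Orb x, ‖F w‖ := norm_sum_le _ _
      _ ≤ ∑ w ∈ Orb x, (p : ℝ) ^ (-τ) * K.card := Finset.sum_le_sum hb
      _ = (cnt q : ℝ) * ((p : ℝ) ^ (-τ) * K.card) := by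
          rw [Finset.sum_const, nsmul_eq_mul, card_Orb]
      _ = (K.card : ℝ) * ((p : ℝ) ^ (-τ) * cnt q) := by ring
  exact le_of_mul_le_mul_left hc (by exact_mod_cast hKpos)

end Pool.Agent.Lib.MP_715eb0_an.RO
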