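import Pool.Agent.Lib.MP_715eb0_an.RO.Spec2

/-!
# Module RD3: the reduction with the condition on the primes
-/

set_option autoImplicit false

open MeasureTheory Finset Filter
open scoped Topology

namespace Pool.Agent.Lib.MP_715eb0_an.RO

open Pool.Agent.Lib.MP_715eb0_an

namespace RD3M

theorem mem_Ker {q r h : ℕ} : h ∈ Ker q r ↔ h ∈ R q ∧ h ≡ 1 [MOD r] := by
  classical
  unfold Ker
  rw [Finset.mem_filter]

theorem R_sub (q : ℕ) : R q ⊆ range q := by
  classical
  unfold R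
  exact Finset.filter_subset _ _

/-- the kernel of the reduction from `r p` to `r` has at most `p` elements -/
theorem card_Ker_le {q r p : ℕ} (hq : r * p = q) (hr : 0 < r) : (Ker q r).card ≤ p := by
  have h1 : (Ker q r).card ≤ (range p).card := by
    refine Finset.card_le_card_of_injOn (fun h => h / r) ?_ ?_
    · intro h hh
      have h2 : h < q := Finset.mem_range.1 (R_sub q (mem_Ker.1 (Finset.mem_coe.1 hh)).1)
      rw [Finset.mem_coe, Finset.mem_range]
      show h / r < p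
      rw [Nat.div_lt_iff_lt_mul hr, mul_comm, hq]
      exact h2
    · intro h hh h' hh' heq
      have e1 : h % r = 1 % r := (mem_Ker.1 (Finset.mem_coe.1 hh)).2
      have e2 : h' % r = 1 % r := (mem_Ker.1 (Finset.mem_coe.1 hh')).2
      have e3 : h / r = h' / r := heq
      rw [← Nat.div_add_mod h r, ← Nat.div_add_mod h' r, e1, e2, e3]
  rwa [Finset.card_range] at h1

/-- the elementary inequality -/
theorem lt_of_rpow {τ t p : ℝ} (hτ : 0 < τ) (ht : 0 < t) (hp : 0 < p) (h : τ < p ^ (-t)) :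
    p < τ ^ (-(1 / t)) := by
  have h1 : p ^ t < τ⁻¹ := by
    rw [Real.rpow_neg hp.le] at h
    have h2 : 0 < p ^ t := Real.rpow_pos_of_pos hp t
    exact (lt_inv_comm₀ hτ h2).1 h
  have h2 : (p ^ t) ^ (1 / t) < (τ⁻¹) ^ (1 / t) :=
    Real.rpow_lt_rpow (Real.rpow_nonneg hp.le t) h1 (by positivity)
  rw [← Real.rpow_mul hp.le, mul_one_div_cancel ht.ne', Real.rpow_one, Real.inv_rpow hτ.le,
    ← Real.rpow_neg hτ.le] at h2
  exact h2

end RD3M

theorem specRD3 (hRD2 : SpecRD2) (hKER : SpecKER) (hRBG : SpecRBG) : SpecRD3 := by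
  intro n τ hn hτ
  have hex : ∀ m : ℕ, 1 ≤ m → ∃ t : ℝ, 0 < t ∧ ∃ P : ℕ, ∀ x : T, (addOrderOf x).Coprime 6 →
      ∀ r p : ℕ, p.Prime → P ≤ p → r.Coprime p → r * p = addOrderOf x →
        (p : ℝ) ^ (1 / (m : ℝ)) * cnt r ≤ cnt (addOrderOf x) → ∀ n : ℤ, ¬ ((p : ℤ) ∣ n) →
          ‖∑ w ∈ Orb x, (fourier n w : ℂ)‖ ≤ (p : ℝ) ^ (-t) * cnt (addOrderOf x) := by
    intro m hm
    have hm0 : (0 : ℝ) < m := by exact_mod_cast (by omega : 0 < m)
    exact hRBG (1 / (m : ℝ)) (by positivity)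
  choose! t ht P hP using hex
  refine ⟨fun m => max (max 1 (P m : ℝ)) (max (|(n : ℝ)| + 1) (τ ^ (-(1 / t m)))), ?_⟩
  intro x hx hlarge
  obtain ⟨M, n', hM1, hn', hint, hcop, hred, hMc⟩ := hRD2 x hx n τ hn hτ hlarge
  refine ⟨M, n', hM1, hn', hint, hcop, ⟨hred, fun m hm r p hp hrp hrpD => ?_⟩, hMc⟩
  set D := addOrderOf (M • x) with hD
  have hD0 : 0 < D := pos_of_coprime hcop
  have hr0 : 0 < r := by
    rcases Nat.eq_zero_or_pos r with h | h
    · rw [h, zero_mul] at hrpD; omega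
    · exact h
  have hp0 : (0 : ℝ) < p := by exact_mod_cast hp.pos
  have hp1 : (1 : ℝ) ≤ p := by exact_mod_cast hp.one_lt.le
  have hm0 : (0 : ℝ) < m := by exact_mod_cast (by omega : 0 < m)
  have hpm1 : (1 : ℝ) ≤ (p : ℝ) ^ (1 / (m : ℝ)) := Real.one_le_rpow hp1 (by positivity)
  have hcr : (0 : ℝ) ≤ cnt r := Nat.cast_nonneg _
  show (cnt D : ℝ) ≤ max (max 1 (P m : ℝ)) (max (|(n : ℝ)| + 1) (τ ^ (-(1 / t m)))) *
    (p : ℝ) ^ (1 / (m : ℝ)) * cnt r
  set Bm := max (max 1 (P m : ℝ)) (max (|(n : ℝ)| + 1) (τ ^ (-(1 / t m)))) with hBm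
  have hB1 : (1 : ℝ) ≤ Bm := (le_max_left _ _).trans (le_max_left _ _)
  have hBP : (P m : ℝ) ≤ Bm := (le_max_right _ _).trans (le_max_left _ _)
  have hBn : |(n : ℝ)| + 1 ≤ Bm := (le_max_left _ _).trans (le_max_right _ _)
  have hBt : τ ^ (-(1 / t m)) ≤ Bm := (le_max_right _ _).trans (le_max_right _ _)
  by_cases h1 : (cnt D : ℝ) ≤ (p : ℝ) ^ (1 / (m : ℝ)) * cnt r
  · refine h1.trans ?_
    rw [mul_assoc]
    exact le_mul_of_one_le_left (mul_nonneg (by linarith) hcr) hB1
  · push Not at h1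
    have hpB : (p : ℝ) ≤ Bm := by
      by_cases hPp : P m ≤ p
      · by_cases hnp : |(n : ℝ)| < p
        · have hn0 : n' ≠ 0 := by
            rintro rfl
            rw [mul_zero] at hn'
            exact hn hn'.symm
          have hnd : ¬ ((p : ℤ) ∣ n') := by
            intro hdv
            apply hn0
            refine Int.eq_zero_of_abs_lt_dvd hdv ?_
            have h2 : |n'| ≤ |n| := by
              rw [← hn', abs_mul]
              have h3 : (1 : ℤ) ≤ |(M : ℤ)| := by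
                rw [Nat.abs_cast]; exact_mod_cast hM1
              exact le_mul_of_one_le_left (abs_nonneg _) h3
            have h4 : |n| < (p : ℤ) := by exact_mod_cast hnp
            exact lt_of_le_of_lt h2 h4
          have h2 := hP m hm (M • x) hcop r p hp hPp hrp hrpD h1.le n' hnd
          have h3 := integral_U (S := Orb (M • x)) (fourier n' : C(T, ℂ))
          have hcard : (Orb (M • x)).card = cnt (addOrderOf (M • x)) := card_Orb (M • x)
          rw [hcard] at h3
          have hcpos : (0 : ℝ) < cnt (addOrderOf (M • x)) := by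
            exact_mod_cast cnt_pos (pos_of_coprime hcop)
          have h4 : ‖∫ t, (fourier n' t : ℂ) ∂(U (Orb (M • x)))‖ =
              (cnt (addOrderOf (M • x)) : ℝ)⁻¹ * ‖∑ w ∈ Orb (M • x), (fourier n' w : ℂ)‖ := by
            rw [h3, norm_mul, norm_inv, Complex.norm_natCast]
          rw [hint, h4, inv_mul_eq_div, lt_div_iff₀ hcpos] at hlarge
          have h5 : τ < (p : ℝ) ^ (-(t m)) := by
            have h6 := hlarge.trans_le h2
            exact lt_of_mul_lt_mul_right h6 hcpos.le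
          exact (RD3M.lt_of_rpow hτ (ht m hm) hp0 h5).le.trans hBt
        · push Not at hnp
          linarith
      · push Not at hPp
        have h2 : (p : ℝ) ≤ P m := by exact_mod_cast hPp.le
        linarith
    obtain ⟨_, _, hk⟩ := hKER D r hcop ⟨p, hrpD.symm⟩
    have h2 : (cnt D : ℝ) = (Ker D r).card * cnt r := by exact_mod_cast hk.symm
    have h3 : ((Ker D r).card : ℝ) ≤ p := by
      exact_mod_cast RD3M.card_Ker_le hrpD hr0
    calc (cnt D : ℝ) = (Ker D r).card * cnt r := h2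
      _ ≤ p * cnt r := mul_le_mul_of_nonneg_right h3 hcr
      _ ≤ Bm * cnt r := mul_le_mul_of_nonneg_right hpB hcr
      _ ≤ Bm * (p : ℝ) ^ (1 / (m : ℝ)) * cnt r :=
        mul_le_mul_of_nonneg_right (le_mul_of_one_le_right (by linarith) hpm1) hcr

end Pool.Agent.Lib.MP_715eb0_an.RO
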