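import Pool.Agent.Lib.MP_715eb0_an.RO.Final
import Pool.Agent.Lib.MP_715eb0_an.RO.BGK
import Pool.Agent.Lib.MP_715eb0_an.RO.RBG
import Pool.Agent.Lib.MP_715eb0_an.RO.RD3
import Pool.Agent.Lib.MP_715eb0_an.RO.RE3
import Pool.Agent.Lib.MP_cb27ba_nt.SP.BSG
import Pool.Agent.Lib.MP_cb27ba_nt.SP.WT
import Pool.Agent.Lib.MP_cb27ba_nt.SP.FID
import Pool.Agent.Lib.MP_cb27ba_nt.SP.TRUNC
import Pool.Agent.Lib.MP_cb27ba_nt.SP.UNIF
import Pool.Agent.Lib.MP_cb27ba_nt.SP.PACK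
import Pool.Agent.Lib.MP_cb27ba_nt.SP.PIV
import Pool.Agent.Lib.MP_cb27ba_nt.SP.FL

/-!
# MP_715eb0_an: reduction to correlated orders (assembly of the second part)
-/

open MeasureTheory Finset Filter
open scoped Topology

namespace Pool.Agent.Lib.MP_715eb0_an.RO

open Pool.Agent.Lib.MP_715eb0_an

/-- flattening (sum-product library of MP_cb27ba) -/
theorem fl : MPcb27.SP.SpecFL :=
  MPcb27.SP.specFL (MPcb27.SP.specMEAS MPcb27.SP.specWT) MPcb27.SP.specFID MPcb27.SP.specTRUNC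
    (MPcb27.SP.specPACK (MPcb27.SP.specBSG MPcb27.SP.gr) MPcb27.SP.specUNIF) MPcb27.SP.specPIV

theorem rbg : SpecRBG := specRBG ker (specBGK fl)
theorem rd3 : SpecRD3 := specRD3 rd2 ker rbg
theorem re3 : SpecRE3 := specRE3 rd3 SI.specTRG

/-- The relative bound, for measures. -/
theorem relBGK (δ : ℝ) (hδ : 0 < δ) : ∃ τ : ℝ, 0 < τ ∧ ∃ P : ℕ, ∀ μ : Measure T, Erg μ →
    ∀ x : T, μ {x} ≠ 0 → ∀ r p : ℕ, p.Prime → P ≤ p → r.Coprime p → r * p = addOrderOf x →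
      (p : ℝ) ^ δ * cnt r ≤ cnt (addOrderOf x) → ∀ n : ℤ, ¬ ((p : ℤ) ∣ n) →
        ‖∫ t, (fourier n t : ℂ) ∂μ‖ ≤ (p : ℝ) ^ (-τ) := by
  obtain ⟨τ, hτ, P, hP⟩ := rbg δ hδ
  refine ⟨τ, hτ, P, ?_⟩
  intro μ hμ x hx r p hp hPp hrp hq hN n hn
  obtain ⟨hU, _⟩ := SI.FINM.eq_U hμ hx
  have hcop : (addOrderOf x).Coprime 6 := by
    obtain ⟨x₀, h1, h2⟩ := classify hμ
    have h3 : x ∈ Orb x₀ := by
      rw [h2] at hx
      exact (U_singleton x).mp hx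
    rw [order_of_mem_Orb h1 h3]
    exact h1
  have h6 := hP x hcop r p hp hPp hrp hq hN n hn
  have h7 := integral_U (S := Orb x) (fourier n : C(T, ℂ))
  rw [hU, h7, norm_mul, norm_inv, Complex.norm_natCast, card_Orb]
  have hc : (0 : ℝ) < cnt (addOrderOf x) := by
    exact_mod_cast cnt_pos (pos_of_coprime hcop)
  rw [inv_mul_le_iff₀ hc]
  linarith [h6]

end Pool.Agent.Lib.MP_715eb0_an.RO
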