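import Pool.Agent.Lib.MP_715eb0_an.RO.Defs
import Pool.Agent.Lib.MP_715eb0_an.RO.Final2

/-!
# MP_715eb0_an: reduction to correlated orders, in terms of the definitions of `RO/Defs.lean`
-/

open MeasureTheory Finset Filter
open scoped Topology

namespace Pool.Agent.Lib.MP_715eb0_an.Orders

open Pool.Agent.Lib.MP_715eb0_an

theorem N_eq (q : ℕ) : N q = cnt q := by
  classical
  rcases Nat.eq_zero_or_pos q with h | h
  · subst h
    have h1 : cnt 0 = 0 := by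
      simp [cnt, R]
    have h2 : {r : ℕ | ∃ i j : ℕ, 2 ^ i * 3 ^ j % 0 = r}.Infinite := by
      apply Set.infinite_of_injective_forall_mem (f := fun i : ℕ => 2 ^ i)
      · exact Nat.pow_right_injective le_rfl
      · intro i
        exact ⟨i, 0, by simp⟩
    rw [N, h2.ncard, h1]
  · have h1 : {r : ℕ | ∃ i j : ℕ, 2 ^ i * 3 ^ j % q = r} = (R q : Set ℕ) := by
      ext r
      rw [Set.mem_ofPred_eq, Finset.mem_coe, mem_R h]
    rw [N, h1, Set.ncard_coe_finset, cnt]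

theorem rad_eq (q : ℕ) : rad q = RO.rad q := rfl

theorem reduced_iff (C : ℝ) (B : ℕ → ℝ) (q : ℕ) : Reduced C B q ↔ RO.Red2 C B q := by
  simp only [Reduced, RO.Red2, RO.Red, N_eq, rad_eq, and_assoc]

theorem reduction :
    (∀ μ : ℕ → Measure T, (∀ j, Erg (μ j)) → Tendsto (fun j => atoms (μ j)) atTop atTop → Lim μ) ↔
      ∀ (C : ℝ) (B : ℕ → ℝ) (μ : ℕ → Measure T),
        (∀ j, Erg (μ j) ∧ ∀ x : T, μ j {x} ≠ 0 → Reduced C B (addOrderOf x)) →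
        Tendsto (fun j => atoms (μ j)) atTop atTop → Lim μ := by
  refine ⟨fun h _ _ μ hμ => h μ fun j => (hμ j).1, fun h => ?_⟩
  exact RO.re3 fun C B μ hμ => h C B μ fun j =>
    ⟨(hμ j).1, fun x hx => (reduced_iff C B _).mpr ((hμ j).2 x hx)⟩

theorem relative (δ : ℝ) (hδ : 0 < δ) : ∃ τ : ℝ, 0 < τ ∧ ∃ P : ℕ, ∀ μ : Measure T, Erg μ →
    ∀ x : T, μ {x} ≠ 0 → ∀ r p : ℕ, p.Prime → P ≤ p → r.Coprime p → r * p = addOrderOf x →
      (p : ℝ) ^ δ * N r ≤ N (addOrderOf x) → ∀ n : ℤ, ¬ ((p : ℤ) ∣ n) →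
        ‖∫ t, (fourier n t : ℂ) ∂μ‖ ≤ (p : ℝ) ^ (-τ) := by
  simp only [N_eq]
  exact RO.relBGK δ hδ

end Pool.Agent.Lib.MP_715eb0_an.Orders
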