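import Pool.Agent.Lib.MP_715eb0_an.RO.Spec

/-!
# Module KER: the kernel of the reduction from `q` to `r`
-/

set_option autoImplicit false

open MeasureTheory Finset Filter
open scoped Topology

namespace Pool.Agent.Lib.MP_715eb0_an.RO

open Pool.Agent.Lib.MP_715eb0_an

namespace KERM

lemma mem_Ker {q r h : ℕ} : h ∈ Ker q r ↔ h ∈ R q ∧ h ≡ 1 [MOD r] := by
  simp only [Ker, mem_filter]

lemma lt_of_mem {q h : ℕ} (hh : h ∈ R q) : h < q := by
  classical
  simp only [R, mem_filter, mem_range] at hh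
  exact hh.1

lemma mul_mem {q h h' : ℕ} (hq : 0 < q) (hh : h ∈ R q) (hh' : h' ∈ R q) : h * h' % q ∈ R q := by
  obtain ⟨i, j, rfl⟩ := (mem_R hq).1 hh
  obtain ⟨i', j', rfl⟩ := (mem_R hq).1 hh'
  refine (mem_R hq).2 ⟨i + i', j + j', ?_⟩
  rw [← Nat.mul_mod]
  congr 1
  ring

lemma coprime_mem {q h : ℕ} (hq : q.Coprime 6) (hh : h ∈ R q) : h.Coprime q := by
  obtain ⟨i, j, rfl⟩ := (mem_R (pos_of_coprime hq)).1 hh
  exact ((Nat.mod_modEq (2 ^ i * 3 ^ j) q).gcd_eq).trans (coprime_two_three hq i j)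

lemma exists_inv {q g : ℕ} (hq : q.Coprime 6) (hg : g ∈ R q) : ∃ g' ∈ R q, g * g' ≡ 1 [MOD q] := by
  have hq0 := pos_of_coprime hq
  obtain ⟨i, j, rfl⟩ := (mem_R hq0).1 hg
  refine ⟨2 ^ (i * (q.totient - 1)) * 3 ^ (j * (q.totient - 1)) % q,
    (mem_R hq0).2 ⟨_, _, rfl⟩, ?_⟩
  have h1 : (2 ^ i * 3 ^ j) ^ q.totient ≡ 1 [MOD q] :=
    Nat.ModEq.pow_totient (coprime_two_three hq i j)
  have h2 : (2 ^ i * 3 ^ j) ^ q.totient =
      (2 ^ i * 3 ^ j) * (2 ^ (i * (q.totient - 1)) * 3 ^ (j * (q.totient - 1))) := by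
    have h3 : 0 < q.totient := Nat.totient_pos.2 hq0
    obtain ⟨n, hn⟩ : ∃ n, q.totient = n + 1 := ⟨q.totient - 1, by omega⟩
    rw [hn, Nat.add_sub_cancel, pow_succ, mul_pow, ← pow_mul, ← pow_mul]
    ring
  rw [h2] at h1
  exact ((Nat.mod_modEq _ q).mul (Nat.mod_modEq _ q)).trans h1

end KERM

open KERM in
/-- **KER** -/
theorem specKER : SpecKER := by
  classical
  intro q r hq hr
  have hq0 := pos_of_coprime hq
  have hrq : r.Coprime 6 := Nat.Coprime.coprime_dvd_left hr hq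
  have hr0 := pos_of_coprime hrq
  refine ⟨mem_Ker.2 ⟨(mem_R hq0).2 ⟨0, 0, rfl⟩, (Nat.mod_modEq 1 q).of_dvd hr⟩, ?_, ?_⟩
  · intro h hh h' hh'
    rw [mem_Ker] at hh hh' ⊢
    exact ⟨mul_mem hq0 hh.1 hh'.1, ((Nat.mod_modEq _ q).of_dvd hr).trans (hh.2.mul hh'.2)⟩
  · have hmap : ∀ h ∈ R q, h % r ∈ R r := by
      intro h hh
      obtain ⟨i, j, rfl⟩ := (mem_R hq0).1 hh
      exact (mem_R hr0).2 ⟨i, j, (Nat.mod_mod_of_dvd _ hr).symm⟩
    have hf : ∀ b ∈ R r, ((R q).filter fun h => h % r = b).card = (Ker q r).card := by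
      intro b hb
      obtain ⟨i, j, hij⟩ := (mem_R hr0).1 hb
      obtain ⟨g, hg⟩ : ∃ g, g = 2 ^ i * 3 ^ j % q := ⟨_, rfl⟩
      have hgR : g ∈ R q := (mem_R hq0).2 ⟨i, j, hg.symm⟩
      have hgb : g % r = b := by rw [hg, Nat.mod_mod_of_dvd _ hr, hij]
      obtain ⟨g', hg', hgg⟩ := exists_inv hq hgR
      have hgq := coprime_mem hq hgR
      symm
      refine Finset.card_bij (fun h _ => g * h % q) ?_ ?_ ?_
      · intro h hh
        rw [mem_Ker] at hh
        refine mem_filter.2 ⟨mul_mem hq0 hgR hh.1, ?_⟩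
        have h1 : g * h % r = g * 1 % r := hh.2.mul_left g
        rw [Nat.mod_mod_of_dvd _ hr, h1, mul_one, hgb]
      · intro h hh h' hh' he
        rw [mem_Ker] at hh hh'
        have h0 : g * h ≡ g * h' [MOD q] := he
        have h1 : h ≡ h' [MOD q] :=
          Nat.ModEq.cancel_left_of_coprime (Nat.coprime_comm.1 hgq) h0
        exact Nat.ModEq.eq_of_lt_of_lt h1 (lt_of_mem hh.1) (lt_of_mem hh'.1)
      · intro k hk
        rw [mem_filter] at hk
        have h2 : g * (g' * k % q) ≡ k [MOD q] := by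
          have h3 : g * (g' * k % q) ≡ g * (g' * k) [MOD q] := (Nat.mod_modEq _ q).mul_left g
          have h4 : g * g' * k ≡ 1 * k [MOD q] := hgg.mul_right k
          rw [one_mul, mul_assoc] at h4
          exact h3.trans h4
        refine ⟨g' * k % q, mem_Ker.2 ⟨mul_mem hq0 hg' hk.1, ?_⟩, ?_⟩
        · have h5 : g * (g' * k % q) ≡ g * 1 [MOD r] := by
            have h6 : k ≡ g [MOD r] := by
              rw [Nat.ModEq, hk.2, hgb]
            rw [mul_one]
            exact (h2.of_dvd hr).trans h6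
          have h7 : g.Coprime r := Nat.Coprime.coprime_dvd_right hr hgq
          exact Nat.ModEq.cancel_left_of_coprime (Nat.coprime_comm.1 h7) h5
        · change g * (g' * k % q) % q = k
          rw [h2, Nat.mod_eq_of_lt (lt_of_mem hk.1)]
    have h8 : (R q).card = ∑ b ∈ R r, ((R q).filter fun h => h % r = b).card :=
      Finset.card_eq_sum_card_fiberwise hmap
    rw [cnt, cnt, h8, Finset.sum_congr rfl hf, Finset.sum_const, smul_eq_mul, mul_comm]

end Pool.Agent.Lib.MP_715eb0_an.RO
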