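import Pool.Agent.Lib.MP_715eb0_an.SI.Spec

/-!
# MP_715eb0_an: reduction to correlated orders (specifications of the modules)

`N(q) = cnt q` is the number of residues of `2^i 3^j` modulo `q`, `rad q` the product of the primes
dividing `q`. THEOREM. Let `μ` be one of the measures of the question, `q` the order of its atoms.
(1) With `M = N(q) / N(rad q)`, `∫ e(n x) dμ = 0` for every integer `n` not divisible by `M`.
(2) If `q = r s`, `r` prime to `s`, then `|∫ e(n x) dμ| ≤ √(s |n|) N(r) / N(q)` for `n ≠ 0`.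
(3) Q1 is true if (and only if) it is true, for every `C`, for the sequences of measures whose orders
`q` satisfy `N(q) = N(rad q)` and `N(q) ≤ C √s N(r)` for all factorizations `q = r s`, `r` prime to `s`.

All modules are independent: file `Pool/Agent/Lib/MP_715eb0_an/RO/XXX.lean`, import
`Pool.Agent.Lib.MP_715eb0_an.RO.Spec` (and `SI/MOM.lean` for `SI.MOMM.integral_eq`), namespace
`Pool.Agent.Lib.MP_715eb0_an.RO`, theorem `specXXX (hYYY : SpecYYY) .. : SpecXXX` with the hypotheses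
in the order of USES, own lemmas in a namespace `XXXM`.
-/

set_option autoImplicit false

open MeasureTheory Finset Filter
open scoped Topology

namespace Pool.Agent.Lib.MP_715eb0_an.RO

open Pool.Agent.Lib.MP_715eb0_an

/-- The product of the primes dividing `q`. -/
def rad (q : ℕ) : ℕ := ∏ p ∈ q.primeFactors, p

open Classical in
/-- The residues `h` of `2^i 3^j` modulo `q` with `h = 1` modulo `r`. -/
noncomputable def Ker (q r : ℕ) : Finset ℕ := (R q).filter (fun h => h ≡ 1 [MOD r])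

/-- The condition on the order `q` in (3). -/
def Red (C : ℝ) (q : ℕ) : Prop :=
  cnt q = cnt (rad q) ∧ ∀ r s : ℕ, r.Coprime s → r * s = q → (cnt q : ℝ) ≤ C * √(s : ℝ) * cnt r

/-- `∫ f dμ_j → ∫ f` for all continuous `f`. -/
def Lim (μ : ℕ → Measure T) : Prop :=
  ∀ f : C(T, ℝ), Tendsto (fun j => ∫ t, f t ∂(μ j)) atTop (𝓝 (∫ t in (0 : ℝ)..1, f ((t : ℝ) : T)))

/-- KER (150 lines). USES nothing. The kernel of the reduction from `q` to `r`.
PROOF. `R q` is closed under multiplication modulo `q` and consists of residues prime to `q`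
(`coprime_two_three`); inverses: `(2^i 3^j)^(φ(q) - 1)`. The reduction `h ↦ h % r` maps `R q` onto
`R r` (`2^i 3^j % q % r = 2^i 3^j % r`). For `g` in `R q` the map `h ↦ g h % q` is a bijection of
`Ker q r` onto the fibre of `g % r` (inverse: multiplication by an inverse of `g` in `R q`). So all
fibres have `|Ker q r|` elements (`Finset.card_eq_sum_card_fiberwise`). -/
def SpecKER : Prop :=
  ∀ q r : ℕ, q.Coprime 6 → r ∣ q → 1 % q ∈ Ker q r ∧
    (∀ h ∈ Ker q r, ∀ h' ∈ Ker q r, h * h' % q ∈ Ker q r) ∧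
    (Ker q r).card * cnt r = cnt q

/-- CYC (220 lines). USES nothing. Subgroups of the residues that are `1` modulo `rad q`.
PROOF. `r = rad q` is odd, and every prime dividing `q` divides `r`. `G₁` = the group of the units
`u` of `ZMod q` with `u = 1` modulo `r`; the residues `1 + r t`, `t < q / r`, are all prime to `q`,
so `|G₁| = q / r`. The order of `g = 1 + r` is `q / r`: if `q ∣ (1 + r)^t - 1`, `t > 0`, then for
every prime `p ∣ q` (`padicValNat.pow_sub_pow`, `p` odd, `p ∣ r`, `p ∤ 1 + r`)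
`v_p(q) ≤ v_p(r) + v_p(t) = 1 + v_p(t)`, so `q / r ∣ t`; and `g ∈ G₁` has order dividing `|G₁|`. So
`G₁` is cyclic of order `q / r`. `K` (closed under multiplication, contains `1`, finite) is the set
of the representatives of a subgroup of `G₁`, of order `m = |K|` dividing `q / r`, so `m r ∣ q`. All
its elements satisfy `u^m = 1`, and `G₁` has at most `m` solutions of `u^m = 1`
(`IsCyclic.card_pow_eq_one_le`), so `K` is the set of these solutions. Let `D = q / m`, a multiple of
`r`. The residues `1 + D t` (`t < m`) are in `G₁` and form a subgroup of order `m`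
(`(1 + D t)(1 + D t') = 1 + D (t + t' + D t t')`), so they satisfy `u^m = 1` and are in `K`. -/
def SpecCYC : Prop :=
  ∀ q : ℕ, q.Coprime 6 → ∀ K : Finset ℕ, K ⊆ range q → (∀ h ∈ K, h ≡ 1 [MOD rad q]) →
    1 % q ∈ K → (∀ h ∈ K, ∀ h' ∈ K, h * h' % q ∈ K) →
      K.card * rad q ∣ q ∧ ∀ t : ℕ, (1 + q / K.card * t) % q ∈ K

/-- FVN (140 lines). USES KER, CYC. Vanishing Fourier coefficients.
PROOF. `q` the order of `x`, `K = Ker q (rad q)` (`rad q ∣ q`), `M = |K|`, `D = q / M`, `M D = q` (by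
CYC). For every `t < M` the residue `h = (1 + D t) % q` is in `K ⊆ R q`; the map `w ↦ h • w` is a
bijection of `Orb x` (it maps `Orb x` into itself, `mem_Orb`, and is injective, because `h` is prime
to the order `q` of the points of `Orb x`), and `h • w = w + t • (D • w)`. So
`M Σ_w fourier n w = Σ_w fourier n w Σ_{t < M} fourier n (t • (D • w))`. The point `n • (D • w)` is
killed by `M` and is not `0` (`q ∤ n D` as `M ∤ n`), so `ζ = fourier n (D • w) ≠ 1`, `ζ^M = 1` and the
inner sum `Σ ζ^t` is `0`. -/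
def SpecFVN : Prop :=
  ∀ x : T, (addOrderOf x).Coprime 6 → ∀ n : ℤ,
    ¬ (((Ker (addOrderOf x) (rad (addOrderOf x))).card : ℤ) ∣ n) →
      ∑ w ∈ Orb x, (fourier n w : ℂ) = 0

/-- KRM (100 lines). USES KER, CYC. The reduced order.
PROOF. `r = rad q`, `K = Ker q r`, `M = |K|`, `D = q / M`; by CYC (for `K`) `M r ∣ q`, so `M ∣ q`,
`r ∣ D ∣ q` and `rad D = rad q`. `Ker q D ⊆ K`, and by CYC the `M` different residues `(1 + D t) % q`,
`t < M`, are in `K` and `= 1` modulo `D`, so `|Ker q D| = M`. KER for `(q, D)` and `(q, r)`: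
`M cnt D = cnt q = M cnt r`. -/
def SpecKRM : Prop :=
  ∀ q M : ℕ, q.Coprime 6 → M = (Ker q (rad q)).card → 1 ≤ M ∧ M ∣ q ∧ M * cnt (q / M) = cnt q ∧
    cnt (q / M) = cnt (rad (q / M))

/-- SC1 (190 lines). USES nothing. A second moment.
PROOF. `q = r s` the order of `x`. Open the square; `h • ((1 + r u) • x) = h • x + u • ((h r) • x)`, so
the left hand side is `Σ_{h, h' ∈ K} fourier n ((h - h') x) Σ_{u < s} fourier u (y)`,
`y = (n (h - h') r) • x`. As `s • y = 0` (`r s = q`), the inner sum is `s` if `y = 0` and `0`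
otherwise (geometric sum). `y = 0` iff `q ∣ n (h - h') r` iff `s ∣ n (h - h')`. For fixed `h'` these
`h ∈ K` satisfy `h = h'` modulo `r` and modulo `s / g`, `g = gcd (s, n)`, so modulo `q / g`; in
`range q` there are at most `g ≤ |n|` of them. So the left hand side is at most `|K| |n| s`. -/
def SpecSC1 : Prop :=
  ∀ x : T, (addOrderOf x).Coprime 6 → ∀ r s : ℕ, r.Coprime s → r * s = addOrderOf x →
    ∀ n : ℤ, n ≠ 0 → ∀ K : Finset ℕ, K ⊆ range (addOrderOf x) → (∀ h ∈ K, h ≡ 1 [MOD r]) →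
      ∑ u ∈ range s, ‖∑ h ∈ K, (fourier n (h • ((1 + r * u) • x)) : ℂ)‖ ^ 2 ≤
        s * |(n : ℝ)| * K.card

/-- SC2 (160 lines). USES KER, SC1. The bound for a factorization.
PROOF. `q = r s` the order of `x`, `K = Ker q r`. For `w` in `Orb x` (of order `q`) let
`F w = Σ_{h ∈ K} fourier n (h • w)`. (a) `Σ_{w ∈ Orb x} F w = |K| Σ_{w ∈ Orb x} fourier n w`: for every
`h` in `K` the map `w ↦ h • w` is a bijection of `Orb x`. (b) `|F w|² ≤ s |n|`: for `h` in `K`,
`F (h • w) = F w` (multiplication by `h` modulo `q` is a bijection of `K`), and `h • w = (1 + r u) • w`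
with `u < s`, `u = ((h - 1) / r) % s` if `h ≥ 1` (`q • w = 0`; for `q = 1` everything is trivial),
different `h` in `K` give different `u`; so by SC1 for `w`
`|K| |F w|² = Σ_{h ∈ K} |F (h • w)|² ≤ Σ_{u < s} |F ((1 + r u) • w)|² ≤ s |n| |K|`. (c) So
`|K| |Σ_{w} fourier n w| ≤ |Orb x| √(s |n|)`, `|Orb x| = cnt q` (`card_Orb`) `= |K| cnt r` (KER). -/
def SpecSC2 : Prop :=
  ∀ x : T, (addOrderOf x).Coprime 6 → ∀ r s : ℕ, r.Coprime s → r * s = addOrderOf x →
    ∀ n : ℤ, n ≠ 0 → ‖∑ w ∈ Orb x, (fourier n w : ℂ)‖ ≤ √((s : ℝ) * |(n : ℝ)|) * cnt r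

/-- PSH (40 lines). USES `SI.SpecAVG`. The image under multiplication by `M`.
PROOF. `q` the order of `x`; `q • (M • x) = 0`. `SI.MOMM.integral_eq` for `z = x` and for `z = M • x`,
both with this `q`: both sides are `(cnt q)⁻¹ Σ_{r ∈ R q} fourier n (r • (M • x))`. -/
def SpecPSH : Prop :=
  ∀ x : T, (addOrderOf x).Coprime 6 → ∀ (M : ℕ) (n : ℤ),
    ∫ t, (fourier ((M : ℤ) * n) t : ℂ) ∂(U (Orb x)) = ∫ t, (fourier n t : ℂ) ∂(U (Orb (M • x)))

/-- RD2 (130 lines). USES FVN, SC2, KRM, PSH. A large Fourier coefficient of an orbit is one of an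
orbit with a reduced order.
PROOF. `q` the order of `x`, `M = |Ker q (rad q)|`. By `integral_U` and FVN `M ∣ n`; `n = M n'`. KRM;
the order of `M • x` is `q / M` (`M ∣ q`). PSH. Let `x' = M • x`, `D = q / M` its order; for
`r s = D`, `r` prime to `s`, SC2 and `integral_U`, `card_Orb` give
`τ < |∫ fourier n' dU(Orb x')| ≤ √(s |n'|) cnt r / cnt D`, so `cnt D ≤ (√|n'| / τ) √s cnt r`
(`√(a b) = √a √b`). -/
def SpecRD2 : Prop :=
  ∀ x : T, (addOrderOf x).Coprime 6 → ∀ (n : ℤ) (τ : ℝ), n ≠ 0 → 0 < τ →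
    τ < ‖∫ t, (fourier n t : ℂ) ∂(U (Orb x))‖ →
    ∃ (M : ℕ) (n' : ℤ), 1 ≤ M ∧ (M : ℤ) * n' = n ∧
      ∫ t, (fourier n t : ℂ) ∂(U (Orb x)) = ∫ t, (fourier n' t : ℂ) ∂(U (Orb (M • x))) ∧
      (addOrderOf (M • x)).Coprime 6 ∧ Red (√|(n' : ℝ)| / τ) (addOrderOf (M • x)) ∧
      M * cnt (addOrderOf (M • x)) = cnt (addOrderOf x)

/-- RED (160 lines). USES RD2, `SI.SpecTRG`. The reduction.
PROOF. Suppose that the conclusion fails for `μ` and `f`: there is `ε > 0` with
`ε < |∫ f dμ_j - ∫ f|` for infinitely many `j`. Let `M₀, τ` be those of TRG for `f, ε`. For each of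
these `j`, `μ_j = U (Orb x_j)` (`classify`) and by TRG there is `m`, `0 < |m| ≤ M₀`, with
`τ < |∫ fourier m dμ_j|`; RD2 gives `M ≤ |m|` and `n'`, `|n'| ≤ |m|`. So there are `m, M, n'` which
occur for infinitely many `j` (finitely many triples; pigeonhole for `Filter.Frequently`); let `φ` be
a strictly increasing sequence of such `j` (`Filter.extraction_of_frequently_atTop`) and
`ν_i = U (Orb (M • x_{φ i}))`: it is `Erg` (`erg_U`), its atoms are the points of the orbit
(`U_singleton`), all of order `addOrderOf (M • x_{φ i})` (`order_of_mem_Orb`), which is `Red C` with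
`C = √|n'| / τ`, and `atoms ν_i = cnt (..) = atoms μ_{φ i} / M → ∞` (`atoms_U_Orb`). By hypothesis
`Lim ν`; for the real and imaginary parts of `fourier n'` (`n' ≠ 0`, `integral_fourier`) it gives
`∫ fourier n' dν_i → 0`, but the absolute value is `> τ`: a contradiction. -/
def SpecRED : Prop :=
  (∀ (C : ℝ) (μ : ℕ → Measure T),
    (∀ j, Erg (μ j) ∧ ∀ x : T, μ j {x} ≠ 0 → Red C (addOrderOf x)) →
    Tendsto (fun j => atoms (μ j)) atTop atTop → Lim μ) →
  ∀ μ : ℕ → Measure T, (∀ j, Erg (μ j)) → Tendsto (fun j => atoms (μ j)) atTop atTop → Lim μ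

end Pool.Agent.Lib.MP_715eb0_an.RO
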