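import Pool.Agent.Lib.MP_715eb0_an.RO.Spec
import Pool.Agent.Lib.MP_cb27ba_nt.SP.Spec

/-!
# MP_715eb0_an: reduction to correlated orders, second part: primes `p` with `p ∣ q`, `p² ∤ q`

THEOREM. Let `δ > 0`. There are `τ > 0` and `P` such that for every measure `μ` of the question, `q` the
order of its atoms, every prime `p ≥ P` with `q = r p`, `p ∤ r`, `N(q) ≥ p^δ N(r)`, and every `n` not
divisible by `p`: `|∫ e(n x) dμ| ≤ p^(-τ)`. (`q` may be arbitrarily large compared with `p`.)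

So in the reduction of `RO/Spec.lean` one may also assume that for every `m ≥ 1` and every such prime
`N(q) ≤ B_m p^(1/m) N(q / p)`.

The new tool is the flattening theorem `MPcb27.SP.SpecFL` (proved in our library, a sum-product
theorem), which contains the bound of Bourgain, Glibichuk and Konyagin for subgroups of `F_p^*`.

Rules as in `RO/Spec.lean`: file `Pool/Agent/Lib/MP_715eb0_an/RO/XXX.lean`, import
`Pool.Agent.Lib.MP_715eb0_an.RO.Spec2`.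
-/

set_option autoImplicit false

open MeasureTheory Finset Filter
open scoped Topology

namespace Pool.Agent.Lib.MP_715eb0_an.RO

open Pool.Agent.Lib.MP_715eb0_an

/-- The condition on the orders in the final form of the reduction. -/
def Red2 (C : ℝ) (B : ℕ → ℝ) (q : ℕ) : Prop :=
  Red C q ∧ ∀ m : ℕ, 1 ≤ m → ∀ r p : ℕ, p.Prime → r.Coprime p → r * p = q →
    (cnt q : ℝ) ≤ B m * (p : ℝ) ^ (1 / (m : ℝ)) * cnt r

/-- BGK (120 lines). USES `MPcb27.SP.SpecFL`. Exponential sums over subgroups of `F_p^*`.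
PROOF. `K` is finite, nonempty (`p^δ ≤ #K`, `p ≥ 1`), closed under multiplication and `0 ∉ K`, so it is
the set of the elements of a subgroup (the map `h ↦ g h` is a bijection of `K` for `g ∈ K`). Let
`m(x) = (#K)⁻¹ Σ_{g ∈ K} e(g x)`, `e = ZMod.stdAddChar`. `QA K e = m`: for fixed `d` put `d' = g d`.
`m (g x) = m x` for `g ∈ K`, so `QA K m = m` and `GN K n = m` for all `n ≥ 1`. FL with `γ = δ / 2`,
`D = K` (`2^s ≥ 1`): `Σ_x ‖m x‖^(2k) ≤ p^(δ/2)` for `p ≥ P`. For `x ≠ 0` the `#K ≥ p^δ` different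
points `g x` have the same `‖m‖`, so `p^δ ‖m x‖^(2k) ≤ p^(δ/2)` and `‖m x‖ ≤ p^(-δ/(4k))`. -/
def SpecBGK : Prop :=
  ∀ δ : ℝ, 0 < δ → ∃ τ : ℝ, 0 < τ ∧ ∃ P : ℕ, ∀ (p : ℕ) [Fact p.Prime], P ≤ p →
    ∀ K : Finset (ZMod p), 0 ∉ K → (∀ g ∈ K, ∀ h ∈ K, g * h ∈ K) → (p : ℝ) ^ δ ≤ #K →
      ∀ x : ZMod p, x ≠ 0 → ‖∑ h ∈ K, ZMod.stdAddChar (h * x)‖ ≤ (p : ℝ) ^ (-τ) * #K

/-- RBG (210 lines). USES KER, BGK. The relative bound.
PROOF. `q = r p` the order of `x`, `K = Ker q r`, `|K| cnt r = cnt q` (KER), so `|K| ≥ p^δ`. `K'` = the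
image of `K` in `ZMod p`: the reduction is injective on `K` (`h = h'` modulo `p` and modulo `r` gives
`h = h'` modulo `q`, both are `< q`), `K'` is closed under multiplication, `0 ∉ K'` (`h` is prime to
`q`). Let `w ∈ Orb x` (of order `q`), `F = Σ_{h ∈ K} fourier n (h • w)`. Take integers with
`u r + v p = 1`. `w = z + z'`, `z = u • (r • w)`, `z' = v • (p • w)`. `h • z' = z'` for `h ∈ K`, because
`r • (p • w) = 0` and `h = 1` modulo `r`. `p • z = 0` and `z ≠ 0` (`r • w` has order `p` and `u` is prime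
to `p`), so `z` is the class of `a / p` with `p ∤ a`, and
`fourier n (h • z) = exp (2 π i n h a / p) = stdAddChar (h * (n a))`. So
`‖F‖ = ‖Σ_{h ∈ K'} stdAddChar (h * (n a))‖ ≤ p^(-τ) |K|` by BGK (`n a ≠ 0` in `ZMod p`). Every `h ∈ K`
permutes `Orb x`, so `|K| ‖Σ_{w ∈ Orb x} fourier n w‖ = ‖Σ_w F‖ ≤ |Orb x| p^(-τ) |K|` (`card_Orb`).
(Compare `RO/SC2.lean`.) -/
def SpecRBG : Prop :=
  ∀ δ : ℝ, 0 < δ → ∃ τ : ℝ, 0 < τ ∧ ∃ P : ℕ, ∀ x : T, (addOrderOf x).Coprime 6 →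
    ∀ r p : ℕ, p.Prime → P ≤ p → r.Coprime p → r * p = addOrderOf x →
      (p : ℝ) ^ δ * cnt r ≤ cnt (addOrderOf x) → ∀ n : ℤ, ¬ ((p : ℤ) ∣ n) →
        ‖∑ w ∈ Orb x, (fourier n w : ℂ)‖ ≤ (p : ℝ) ^ (-τ) * cnt (addOrderOf x)

/-- RD3 (170 lines). USES RD2, KER, RBG. As RD2, with the stronger conclusion.
PROOF. For `m ≥ 1` let `τ_m, P_m` be those of RBG for `δ = 1 / m`, and
`B m = max(1, P_m, |n| + 1, τ^(-1/τ_m))`. RD2 gives `M, n'` and `Red`; `n' ≠ 0`, `|n'| ≤ |n|`. Let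
`x' = M • x`, `D` its order, `D = r p`. If `cnt D ≤ p^(1/m) cnt r`, the claim holds (`B m ≥ 1`).
Otherwise, if `p ≥ P_m` and `p > |n|` (so `p ∤ n'`), RBG and `integral_U`, `card_Orb` give
`τ < |∫ fourier n' dU(Orb x')| ≤ p^(-τ_m)`, so `p < τ^(-1/τ_m) ≤ B m`. So in all cases `p ≤ B m`, and
`cnt D = |Ker D r| cnt r ≤ p cnt r ≤ B m p^(1/m) cnt r`: `|Ker D r| ≤ p` because the elements of
`Ker D r` are `< r p` and `1` modulo `r`; `p^(1/m) ≥ 1`. -/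
def SpecRD3 : Prop :=
  ∀ (n : ℤ) (τ : ℝ), n ≠ 0 → 0 < τ → ∃ B : ℕ → ℝ, ∀ x : T, (addOrderOf x).Coprime 6 →
    τ < ‖∫ t, (fourier n t : ℂ) ∂(U (Orb x))‖ →
    ∃ (M : ℕ) (n' : ℤ), 1 ≤ M ∧ (M : ℤ) * n' = n ∧
      ∫ t, (fourier n t : ℂ) ∂(U (Orb x)) = ∫ t, (fourier n' t : ℂ) ∂(U (Orb (M • x))) ∧
      (addOrderOf (M • x)).Coprime 6 ∧ Red2 (√|(n' : ℝ)| / τ) B (addOrderOf (M • x)) ∧
      M * cnt (addOrderOf (M • x)) = cnt (addOrderOf x)

/-- RE3 (170 lines). USES RD3, `SI.SpecTRG`. The reduction, final form.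
PROOF. Copy `RO/RED.lean`: choose the function `B` of RD3 for every `m` with `0 < |m| ≤ M₀` before the
pigeonhole; it depends only on `m` and `τ`. -/
def SpecRE3 : Prop :=
  (∀ (C : ℝ) (B : ℕ → ℝ) (μ : ℕ → Measure T),
    (∀ j, Erg (μ j) ∧ ∀ x : T, μ j {x} ≠ 0 → Red2 C B (addOrderOf x)) →
    Tendsto (fun j => atoms (μ j)) atTop atTop → Lim μ) →
  ∀ μ : ℕ → Measure T, (∀ j, Erg (μ j)) → Tendsto (fun j => atoms (μ j)) atTop atTop → Lim μ

end Pool.Agent.Lib.MP_715eb0_an.RO
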